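import Pool.Agent.MAK.Defs

/-!
# MAK/Wit: compactness and the dichotomy

PROOF PLAN.
`exists_W`: choose for every finite `N ⊆ U` a set `W N` with `1 ∈ W N`, `C a ∪ C b ⊆ F * W N` and no product in `A ∪ N`.  Let `u` be an ultrafilter on
`Finset ↥U` (or on the finite subsets of `U`) with `u ≤ atTop`, `W = {g | ∀ᶠ N in u, g ∈ W N}`.  `1 ∈ W` is clear.  For `c ∈ C a ∪ C b`: for every `N` there is
`f ∈ F` with `f⁻¹ * c ∈ W N`; `F` is finite, so for one `f` this holds for `u`-almost all `N` (`Ultrafilter.eventually_exists_mem_iff` or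
`Filter.eventually_finset...`/`Ultrafilter.finite_biUnion_mem_iff`).  If `x, y ∈ W` and `x * y ∈ U`, then for almost all `N`: `x, y ∈ W N`, `x * y ∈ N`: contradiction.
`dich`: if not, choose `p ∈ W \ K * K`, `r ∈ W \ L * L`.  `p = p * 1 ∈ K ∪ L`, `K ⊆ K * K`, so `p ∈ L`; likewise `r ∈ K`.  `p * r ∈ K ∪ L`: if it is in `K`,
`p = (p * r) * r⁻¹ ∈ K * K`; if it is in `L`, `r = p⁻¹ * (p * r) ∈ L * L`.
-/

set_option autoImplicit false

namespace Pool.Agent.MAK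

open Set Filter Pointwise

theorem exists_W {G I : Type} [Group G] {C : I → Set G} {F : Finset G} {A U : Set G} {a b : I}
    (h : ∀ N : Finset G, (N : Set G) ⊆ U → ¬ Bad C (A ∪ N) F a b) :
    ∃ W : Set G, 1 ∈ W ∧ C a ∪ C b ⊆ (F : Set G) * W ∧ ∀ x ∈ W, ∀ y ∈ W, x * y ∉ U := by
  classical
  have h2 : ∀ N : Finset G, ∃ W : Set G, 1 ∈ W ∧ C a ∪ C b ⊆ (F : Set G) * W ∧
      ((N : Set G) ⊆ U → ∀ x ∈ W, ∀ y ∈ W, x * y ∉ N) := by
    intro N
    by_cases hN : (N : Set G) ⊆ U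
    · have h3 := h N hN
      unfold Bad at h3
      push Not at h3
      obtain ⟨W, h1, hW, h4⟩ := h3
      exact ⟨W, h1, hW, fun _ x hx y hy hxy => h4 x hx y hy (Or.inr hxy)⟩
    · have h3 := h ∅ (by simp)
      unfold Bad at h3
      push Not at h3
      obtain ⟨W, h1, hW, -⟩ := h3
      exact ⟨W, h1, hW, fun h5 => (hN h5).elim⟩
  choose W h1 hW hN using h2
  let g : Finset ↥U → Finset G := fun s => s.image Subtype.val
  have hg : ∀ s, (g s : Set G) ⊆ U := by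
    intro s x hx
    simp only [g, Finset.coe_image, mem_image] at hx
    obtain ⟨y, -, rfl⟩ := hx
    exact y.2
  let u : Ultrafilter (Finset ↥U) := Ultrafilter.of atTop
  have hu : (u : Filter (Finset ↥U)) ≤ atTop := Ultrafilter.of_le atTop
  refine ⟨{x | ∀ᶠ s in (u : Filter (Finset ↥U)), x ∈ W (g s)}, ?_, ?_, ?_⟩
  · exact Filter.Eventually.of_forall fun s => h1 _
  · intro c hc
    have h3 : ∀ s, ∃ f ∈ F, f⁻¹ * c ∈ W (g s) := by
      intro s
      obtain ⟨f, hf, w, hw, he⟩ := mem_mul.1 (hW (g s) hc)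
      refine ⟨f, hf, ?_⟩
      rw [← he, inv_mul_cancel_left]
      exact hw
    have h4 : (⋃ f ∈ F, {s | f⁻¹ * c ∈ W (g s)}) ∈ (u : Filter (Finset ↥U)) := by
      apply Filter.mem_of_superset Filter.univ_mem
      intro s _
      obtain ⟨f, hf, hfs⟩ := h3 s
      exact mem_biUnion hf hfs
    obtain ⟨f, hf, hfu⟩ := (Ultrafilter.finite_biUnion_mem_iff F.finite_toSet).1 h4
    exact mem_mul.2 ⟨f, hf, f⁻¹ * c, hfu, by simp⟩
  · intro x hx y hy hxy
    have h3 : ∀ᶠ s in (u : Filter (Finset ↥U)), ({⟨x * y, hxy⟩} : Finset ↥U) ≤ s :=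
      hu (eventually_ge_atTop _)
    have h4 := (Filter.Eventually.and hx (Filter.Eventually.and hy h3)).exists
    obtain ⟨s, hs1, hs2, hs3⟩ := h4
    apply hN (g s) (hg s) x hs1 y hs2
    exact Finset.mem_image.2 ⟨⟨x * y, hxy⟩, hs3 (Finset.mem_singleton_self _), rfl⟩

theorem dich {G : Type} [Group G] {K L W : Set G} (hK : K⁻¹ = K) (hL : L⁻¹ = L) (hK1 : (1 : G) ∈ K)
    (hL1 : (1 : G) ∈ L) (hW1 : (1 : G) ∈ W) (h : ∀ x ∈ W, ∀ y ∈ W, x * y ∈ K ∪ L) :
    W ⊆ K * K ∨ W ⊆ L * L := by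
  by_contra hcon
  push Not at hcon
  obtain ⟨h1, h2⟩ := hcon
  obtain ⟨p, hp, hpK⟩ := not_subset.1 h1
  obtain ⟨r, hr, hrL⟩ := not_subset.1 h2
  have hKK : K ⊆ K * K := fun x hx => mem_mul.2 ⟨x, hx, 1, hK1, mul_one x⟩
  have hLL : L ⊆ L * L := fun x hx => mem_mul.2 ⟨x, hx, 1, hL1, mul_one x⟩
  have hpL : p ∈ L := by
    have h3 := h p hp 1 hW1
    rw [mul_one] at h3
    exact h3.resolve_left fun h4 => hpK (hKK h4)
  have hrK : r ∈ K := by
    have h3 := h r hr 1 hW1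
    rw [mul_one] at h3
    exact h3.resolve_right fun h4 => hrL (hLL h4)
  rcases h p hp r hr with h3 | h3
  · apply hpK
    refine mem_mul.2 ⟨p * r, h3, r⁻¹, ?_, mul_inv_cancel_right p r⟩
    rw [← hK]
    exact Set.inv_mem_inv.2 hrK
  · apply hrL
    refine mem_mul.2 ⟨p⁻¹, ?_, p * r, h3, inv_mul_cancel_left p r⟩
    rw [← hL]
    exact Set.inv_mem_inv.2 hpL

end Pool.Agent.MAK
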