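import Pool.Agent.MAK.Del
import Pool.Agent.MAK.Wit

/-!
# MAK/Ccc: the antichains are countable

PROOF PLAN.
`compat`: for a finite set `N ⊆ (p.K ∪ q.K)ᶜ` let `r` be the condition `A = p.A ∪ N`, `K = p.K ∪ q.K`, `Z = p.Z ∪ q.Z`, `F = p.F` (`1 ∉ N` as `1 ∈ p.K`).  If
`Bad C (p.A ∪ N) p.F a b` for all `a ∈ p.Z \ R`, `b ∈ q.Z \ R`, then `r ≤ p` (an `a ∈ r.Z \ p.Z` is in `q.Z \ R`, so by `hq` it is larger than all `b ∈ p.Z`) and `r ≤ q`
(an `a ∈ r.Z \ q.Z` is in `p.Z \ R`; for `b ∈ q.Z`, `a < b`: `b ∉ R` by `hp`, so `Bad`), against `hinc`.  So for every `N` some pair is not bad; there are finitely many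
pairs, and `Bad` is monotone in `N` (`Bad.mono`): some pair `(a, b)` is not bad for every `N` (otherwise choose `N a b` for every pair and take the union).  `exists_W` with `U = (p.K ∪ q.K)ᶜ`.
`ccc`: let `S` be an uncountable antichain.  `S` is the union over `(A, F) : Finset G × Finset G` of `{p ∈ S | p.A = A ∧ p.F = F}`; one of them, `S₁`, is uncountable.  `delta` (for `Z := Cond.Z`): `R`, `T ⊆ S₁`.
Remove from `T` the countably many `p` with `∃ a ∈ p.Z, a ∉ R ∧ ∃ b ∈ R, a ≤ b`: `T₁` (still uncountable); so `hp` of `compat` holds for all `p ∈ T₁`.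
For `p ∈ T₁` let `E p = {a | C a ⊆ F * (p.K * p.K)}` (countable by `SmallW`).
The set `Nq p` of the `q ∈ T₁` such that `q = p`, or some `a ∈ q.Z \ R` is `≤` some `b ∈ p.Z`, or some `a ∈ q.Z \ R` is in `E p`, is countable (by the last property in `delta`; the last one is
contained in the union over `a ∈ E p` of `{q | ∃ a' ∈ q.Z, a' ∉ R ∧ a' ≤ a}`).  For `q ∈ T₁ \ Nq p`: `compat` gives `a`, `b`, `W`; `dich`: `W ⊆ p.K * p.K` is impossible, as then `C b ⊆ F * W` gives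
`b ∈ E p`; so `W ⊆ q.K * q.K` and `C a ⊆ L q`, `L q := F * (q.K * q.K)`.  So (*): for `p ∈ T₁`, `q ∈ T₁ \ Nq p` there is `a ∈ p.Z \ R` with `C a ⊆ L q`.
`condens` for `L` and `T₁`: `q₀`.  For every `p ∈ T₁` there is `a ∈ p.Z \ R` with `C a ⊆ L q₀`: otherwise choose `c a ∈ C a \ L q₀` for all `a ∈ p.Z \ R`, `N = ` the finite set of these points;
the set of the `q ∈ T₁` which agree with `q₀` on `N` is not countable, so one of them is not in `Nq p`, and (*) is violated.  But `{a | C a ⊆ L q₀} = E q₀` is countable, and so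
`{p ∈ T₁ | ∃ a ∈ p.Z, a ∉ R ∧ a ∈ E q₀}` is countable: contradiction.
-/

set_option autoImplicit false

namespace Pool.Agent.MAK

open Set Cardinal Pointwise

variable {G I : Type} [Group G] [LinearOrder I] {C : I → Set G} {𝒞 : Set (Set G)}

theorem compat (hC : CloW 𝒞) {p q : Cond C 𝒞} {R : Finset I} (hA : p.A = q.A) (hF : p.F = q.F)
    (hRp : R ⊆ p.Z) (hRq : R ⊆ q.Z) (hp : ∀ a ∈ p.Z, a ∉ R → ∀ b ∈ R, b < a)
    (hq : ∀ a ∈ q.Z, a ∉ R → ∀ b ∈ p.Z, b < a) (hinc : ¬ ∃ r, r ≤ p ∧ r ≤ q) :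
    ∃ a ∈ p.Z, a ∉ R ∧ ∃ b ∈ q.Z, b ∉ R ∧ ∃ W : Set G, 1 ∈ W ∧ C a ∪ C b ⊆ (p.F : Set G) * W ∧
      ∀ x ∈ W, ∀ y ∈ W, x * y ∈ p.K ∪ q.K := by
  classical
  by_contra hcon
  have h1 : ∀ a b : I, ∃ N : Finset G, (N : Set G) ⊆ (p.K ∪ q.K)ᶜ ∧
      (a ∈ p.Z → a ∉ R → b ∈ q.Z → b ∉ R → Bad C ((p.A : Set G) ∪ N) p.F a b) := by
    intro a b
    by_cases hab : a ∈ p.Z ∧ a ∉ R ∧ b ∈ q.Z ∧ b ∉ R
    · obtain ⟨ha, haR, hb, hbR⟩ := hab
      by_contra h2
      push Not at h2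
      obtain ⟨W, hW1, hW2, hW3⟩ := exists_W (C := C) (F := p.F) (A := (p.A : Set G))
        (U := (p.K ∪ q.K)ᶜ) (a := a) (b := b) (fun N hN => (h2 N hN).2.2.2.2)
      refine hcon ⟨a, ha, haR, b, hb, hbR, W, hW1, hW2, fun x hx y hy => ?_⟩
      exact not_not.1 (hW3 x hx y hy)
    · exact ⟨∅, by simp, fun h3 h4 h5 h6 => (hab ⟨h3, h4, h5, h6⟩).elim⟩
  choose N hN hB using h1
  let M : Finset G := p.Z.biUnion fun a => q.Z.biUnion fun b => N a b
  have hM : ∀ x ∈ M, x ∉ p.K ∧ x ∉ q.K := by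
    intro x hx
    simp only [M, Finset.mem_biUnion] at hx
    obtain ⟨a, -, b, -, hx⟩ := hx
    have h2 := hN a b hx
    rw [mem_compl_iff, mem_union, not_or] at h2
    exact h2
  have hsub : ∀ a ∈ p.Z, ∀ b ∈ q.Z, N a b ⊆ M := by
    intro a ha b hb x hx
    simp only [M, Finset.mem_biUnion]
    exact ⟨a, ha, b, hb, hx⟩
  refine hinc ⟨⟨p.A ∪ M, p.K ∪ q.K, p.Z ∪ q.Z, p.F, ?_, hC.union _ p.hK _ q.hK, ?_, Or.inl p.h1⟩,
    ?_, ?_⟩
  · rw [Finset.mem_union, not_or]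
    exact ⟨p.hA, fun h2 => (hM 1 h2).1 p.h1⟩
  · rw [Set.union_inv, p.hi, q.hi]
  · rw [le_def]
    refine ⟨Finset.subset_union_left, subset_union_left, Finset.subset_union_left, subset_rfl,
      ?_, ?_⟩
    · intro x hx hxK
      rcases Finset.mem_union.1 hx with h2 | h2
      · exact h2
      · exact ((hM x h2).1 hxK).elim
    · intro a ha hap b hb hab
      have haq : a ∈ q.Z := (Finset.mem_union.1 ha).resolve_left hap
      have h3 := hq a haq (fun h4 => hap (hRp h4)) b hb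
      exact (lt_asymm hab h3).elim
  · rw [le_def]
    refine ⟨?_, subset_union_right, Finset.subset_union_right, ?_, ?_, ?_⟩
    · rw [← hA]; exact Finset.subset_union_left
    · rw [← hF]
    · intro x hx hxK
      rcases Finset.mem_union.1 hx with h2 | h2
      · rw [← hA]; exact h2
      · exact ((hM x h2).2 hxK).elim
    · intro a ha haq b hb hab
      have hap : a ∈ p.Z := (Finset.mem_union.1 ha).resolve_right haq
      have haR : a ∉ R := fun h4 => haq (hRq h4)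
      have hbR : b ∉ R := fun h4 => lt_asymm hab (hp a hap haR b h4)
      rw [← hF]
      refine (hB a b hap haR hb hbR).mono ?_ subset_rfl
      rw [Finset.coe_union]
      exact union_subset_union_right _ (Finset.coe_subset.2 (hsub a hap b hb))

private theorem Ccc_fin (hC : Clo 𝒞) (F : Finset G) (hF : F.Nonempty) : (F : Set G) ∈ 𝒞 := by
  classical
  induction hF using Finset.Nonempty.cons_induction with
  | singleton a =>
    rw [Finset.coe_singleton]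
    exact hC.sing a
  | cons a s ha hs ih =>
    rw [Finset.coe_cons, Set.insert_eq]
    exact hC.union _ (hC.sing a) _ ih

theorem smallW (hC : Clo 𝒞) (hs : Small C 𝒞) : SmallW C 𝒞 := by
  intro K hK F
  rcases F.eq_empty_or_nonempty with hF | hF
  · refine (hs {1} (hC.sing 1)).mono ?_
    intro a ha
    have h1 : C a ⊆ (F : Set G) * (K * K) := ha
    rw [hF, Finset.coe_empty, Set.empty_mul] at h1
    exact h1.trans (empty_subset _)
  · exact hs _ (hC.mul _ (Ccc_fin hC F hF) _ (hC.mul _ hK _ hK))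

/-- the general form of the argument: `E F K` and `{a | C a ⊆ L F K}` are countable, and if a set `W` covers `C a`, `C b` with `b ∉ E F K` and `W * W ⊆ K ∪ K'`, then `C a ⊆ L F K'` -/
theorem ccc_gen [Countable G] (hI : ∀ i : I, (Iic i).Countable) (hC : CloW 𝒞)
    {E : Finset G → Set G → Set I} {L : Finset G → Set G → Set G}
    (hE : ∀ F, ∀ K ∈ 𝒞, (E F K).Countable) (hL : ∀ F, ∀ K ∈ 𝒞, {a | C a ⊆ L F K}.Countable)
    (key : ∀ (F : Finset G) (K K' W : Set G) (a b : I), K ∈ 𝒞 → K' ∈ 𝒞 → K⁻¹ = K → K'⁻¹ = K' →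
      1 ∈ K → 1 ∈ K' → b ∉ E F K → 1 ∈ W → C a ∪ C b ⊆ (F : Set G) * W →
      (∀ x ∈ W, ∀ y ∈ W, x * y ∈ K ∪ K') → C a ⊆ L F K') :
    CCC (Cond C 𝒞) := by
  classical
  intro S hS
  by_contra hunc
  have h1 : ∃ x : Finset G × Finset G, ¬ {p | p ∈ S ∧ p.A = x.1 ∧ p.F = x.2}.Countable := by
    by_contra hcon
    push Not at hcon
    refine hunc ((Set.countable_iUnion hcon).mono ?_)
    intro p hp
    exact mem_iUnion.2 ⟨(p.A, p.F), hp, rfl, rfl⟩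
  obtain ⟨⟨A, F⟩, hS1⟩ := h1
  obtain ⟨R, T, hTS, hT, hR, hc⟩ := delta hI (fun p : Cond C 𝒞 => p.Z) _ hS1
  -- countability of the exceptional sets
  have hcE : ∀ E : Set I, E.Countable → {q | q ∈ T ∧ ∃ a ∈ q.Z, a ∉ R ∧ ∃ e ∈ E, a ≤ e}.Countable := by
    intro E hE
    refine (hE.biUnion fun e _ => hc e).mono ?_
    rintro q ⟨hq, a, ha, haR, e, he, hae⟩
    exact mem_biUnion he ⟨hq, a, ha, haR, hae⟩
  let T₁ : Set (Cond C 𝒞) := {p | p ∈ T ∧ ∀ a ∈ p.Z, a ∉ R → ∀ b ∈ R, b < a}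
  have hT₁ : ¬ T₁.Countable := by
    intro h2
    refine hT ((h2.union (hcE R R.countable_toSet)).mono ?_)
    intro p hp
    by_cases h3 : ∀ a ∈ p.Z, a ∉ R → ∀ b ∈ R, b < a
    · exact Or.inl ⟨hp, h3⟩
    · push Not at h3
      obtain ⟨a, ha, haR, b, hb, hab⟩ := h3
      exact Or.inr ⟨hp, a, ha, haR, b, hb, hab⟩
  let Nq : Cond C 𝒞 → Set (Cond C 𝒞) := fun p =>
    {p} ∪ ({q | q ∈ T ∧ ∃ a ∈ q.Z, a ∉ R ∧ ∃ e ∈ (p.Z : Set I), a ≤ e} ∪
      {q | q ∈ T ∧ ∃ a ∈ q.Z, a ∉ R ∧ ∃ e ∈ E F p.K, a ≤ e})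
  have hNq : ∀ p, (Nq p).Countable := fun p =>
    (Set.countable_singleton p).union ((hcE _ p.Z.countable_toSet).union
      (hcE _ (hE F p.K p.hK)))
  have hT₁S : ∀ p ∈ T₁, p ∈ S ∧ p.A = A ∧ p.F = F := fun p hp => hTS hp.1
  have hstar : ∀ p ∈ T₁, ∀ q ∈ T₁, q ∉ Nq p →
      ∃ a ∈ p.Z, a ∉ R ∧ C a ⊆ L F q.K := by
    intro p hp q hq hqN
    simp only [Nq, mem_union, mem_singleton_iff, not_or] at hqN
    obtain ⟨hne, hq1, hq2⟩ := hqN
    obtain ⟨hpS, hpA, hpF⟩ := hT₁S p hp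
    obtain ⟨hqS, hqA, hqF⟩ := hT₁S q hq
    obtain ⟨a, ha, haR, b, hb, hbR, W, hW1, hW2, hW3⟩ := compat hC (hpA.trans hqA.symm)
      (hpF.trans hqF.symm) (hR p hp.1) (hR q hq.1) hp.2 (fun a ha haR b hb => by
        by_contra h3
        exact hq1 ⟨hq.1, a, ha, haR, b, hb, not_lt.1 h3⟩) (hS p hpS q hqS (Ne.symm hne))
    rw [hpF] at hW2
    refine ⟨a, ha, haR, key F p.K q.K W a b p.hK q.hK p.hi q.hi p.h1 q.h1 ?_ hW1 hW2 hW3⟩
    intro hbE
    exact hq2 ⟨hq.1, b, hb, hbR, b, hbE, le_rfl⟩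
  obtain ⟨q₀, hq₀, hcond⟩ := condens (fun q : Cond C 𝒞 => L F q.K) T₁ hT₁
  have hall : ∀ p ∈ T₁, ∃ a ∈ p.Z, a ∉ R ∧ C a ⊆ L F q₀.K := by
    intro p hp
    by_contra hcon
    push Not at hcon
    have h5 : ∀ a : I, ∃ c : G, a ∈ p.Z → a ∉ R →
        c ∈ C a ∧ c ∉ L F q₀.K := by
      intro a
      by_cases h6 : a ∈ p.Z ∧ a ∉ R
      · obtain ⟨c, hc1, hc2⟩ := not_subset.1 (hcon a h6.1 h6.2)
        exact ⟨c, fun _ _ => ⟨hc1, hc2⟩⟩
      · exact ⟨1, fun h7 h8 => (h6 ⟨h7, h8⟩).elim⟩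
    choose c hcc using h5
    have h6 := hcond ((p.Z.filter (· ∉ R)).image c)
    have h7 : ∃ q, (q ∈ T₁ ∧ ∀ g ∈ (p.Z.filter (· ∉ R)).image c,
        (g ∈ L F q.K ↔ g ∈ L F q₀.K)) ∧ q ∉ Nq p := by
      by_contra h8
      push Not at h8
      exact h6 ((hNq p).mono fun q hq => h8 q hq)
    obtain ⟨q, ⟨hq, hqg⟩, hqN⟩ := h7
    obtain ⟨a, ha, haR, haL⟩ := hstar p hp q hq hqN
    obtain ⟨hc1, hc2⟩ := hcc a ha haR
    exact hc2 ((hqg (c a) (Finset.mem_image.2 ⟨a, Finset.mem_filter.2 ⟨ha, haR⟩, rfl⟩)).1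
      (haL hc1))
  refine hT₁ ((hcE _ (hL F q₀.K q₀.hK)).mono ?_)
  intro p hp
  obtain ⟨a, ha, haR, haE⟩ := hall p hp
  exact ⟨hp.1, a, ha, haR, a, haE, le_rfl⟩

theorem ccc [Countable G] (hI : ∀ i : I, (Iic i).Countable) (hC : CloW 𝒞) (hs : SmallW C 𝒞) :
    CCC (Cond C 𝒞) := by
  refine ccc_gen hI hC (E := fun F K => {a | C a ⊆ (F : Set G) * (K * K)})
    (L := fun F K => (F : Set G) * (K * K)) (fun F K hK => hs K hK F) (fun F K hK => hs K hK F) ?_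
  intro F K K' W a b _ _ hi hi' h1 h1' hb hW1 hW2 hW3
  rcases dich hi hi' h1 h1' hW1 hW3 with h4 | h4
  · exact (hb ((subset_union_right.trans hW2).trans (mul_subset_mul_left h4))).elim
  · exact (subset_union_left.trans hW2).trans (mul_subset_mul_left h4)

end Pool.Agent.MAK
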