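import Pool.Agent.MAK.Defs

/-!
# MAK/Cof: the closed family, `k_ω` from countable cofinal families, the sets `C a`

PROOF PLAN.
`exists_clo`: `St 0 = 𝒦 ∪ range singleton`, `St (n + 1) = St n ∪ image2 (· ∪ ·) (St n) (St n) ∪ image2 (· * ·) (St n) (St n) ∪
Inv.inv '' St n` (increasing in `n`), `𝒞 = ⋃ n, St n`; cardinalities by induction (`mk_image2_le`, `mk_union_le`, `mk_image_le`,
`mk_iUnion_le_sum_mk` or `Cardinal.mk_iUnion_le`; `ℵ₀ ≤ ℵ₁`, `mul_eq_self`, `add_eq_self`); compactness: `IsCompact.union`, `IsCompact.mul`, `IsCompact.inv`.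
`komega_of_cof`: enumerate `𝒟 = range D`, `D : ℕ → Set G` (it is nonempty by `hs`); `K n = ↥(D n)`, `q p = p.2`; closed sets: `A` with closed preimage
has `A ∩ D n` closed for all `n` (as in `Pool.Agent.ASG.kom`, file ASG/KOm.lean: `isQuotientMap_iff_isClosed`, `isClosed_sigma_iff`,
`isClosedEmbedding_subtypeVal`), and for `K ∈ 𝒦`, `K ⊆ D n`: `A ∩ K = (A ∩ D n) ∩ K` is closed; so `A` is closed by `h.2`.
`exists_small`: `#𝒞 ≤ ℵ₁ ≤ #I` (`I` is uncountable), so there is `e : I → Set G` with `range e = 𝒞`.  For `i`, the countable family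
`e '' Iic i` is not cofinal in `𝒞` (otherwise `komega_of_cof`): choose `C i ∈ 𝒞` with `¬ C i ⊆ e j` for all `j ≤ i`.
If `K = e j` then `{a | C a ⊆ K} ⊆ Iic j`.
`exists_om`: ordinals below `ω₁`.
-/

set_option autoImplicit false

namespace Pool.Agent.MAK

open Set Topology Cardinal Pointwise
open Pool.Agent.ASG (IsKOmega)

private def Cof_St {G : Type} [Group G] (𝒦 : Set (Set G)) : ℕ → Set (Set G)
  | 0 => 𝒦 ∪ range fun g : G => ({g} : Set G)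
  | n + 1 => ((Cof_St 𝒦 n ∪ image2 (fun A B => A ∪ B) (Cof_St 𝒦 n) (Cof_St 𝒦 n)) ∪
      image2 (fun A B => A * B) (Cof_St 𝒦 n) (Cof_St 𝒦 n)) ∪ (fun A : Set G => A⁻¹) '' Cof_St 𝒦 n

private theorem Cof_mono {G : Type} [Group G] (𝒦 : Set (Set G)) : Monotone (Cof_St 𝒦) :=
  monotone_nat_of_le_succ fun _ _ hA => Or.inl (Or.inl (Or.inl hA))

private theorem Cof_card {G : Type} [Group G] [Countable G] (𝒦 : Set (Set G)) (hc : #𝒦 ≤ ℵ₁)
    (n : ℕ) : #(Cof_St 𝒦 n) ≤ ℵ₁ := by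
  have h0 : ℵ₀ ≤ (ℵ₁ : Cardinal.{0}) := aleph0_lt_aleph_one.le
  have hadd : (ℵ₁ : Cardinal.{0}) + ℵ₁ = ℵ₁ := add_eq_self h0
  have hmul : (ℵ₁ : Cardinal.{0}) * ℵ₁ = ℵ₁ := mul_eq_self h0
  have hun : ∀ A B : Set (Set G), #A ≤ ℵ₁ → #B ≤ ℵ₁ → #(A ∪ B : Set (Set G)) ≤ ℵ₁ := by
    intro A B hA hB
    calc #(A ∪ B : Set (Set G)) ≤ #A + #B := mk_union_le A B
      _ ≤ ℵ₁ + ℵ₁ := add_le_add hA hB
      _ = ℵ₁ := hadd
  have him : ∀ (f : Set G → Set G → Set G) (A B : Set (Set G)), #A ≤ ℵ₁ → #B ≤ ℵ₁ →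
      #(image2 f A B) ≤ ℵ₁ := by
    intro f A B hA hB
    calc #(image2 f A B) ≤ #A * #B := mk_image2_le
      _ ≤ ℵ₁ * ℵ₁ := mul_le_mul' hA hB
      _ = ℵ₁ := hmul
  induction n with
  | zero =>
    refine hun _ _ hc ?_
    exact mk_range_le.trans (mk_le_aleph0.trans h0)
  | succ n ih =>
    exact hun _ _ (hun _ _ (hun _ _ ih (him _ _ _ ih ih)) (him _ _ _ ih ih)) (mk_image_le.trans ih)

theorem exists_clo {G : Type} [Group G] [TopologicalSpace G] [IsTopologicalGroup G] [Countable G]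
    {𝒦 : Set (Set G)} (h : ∀ K ∈ 𝒦, IsCompact K) (hc : #𝒦 ≤ ℵ₁) :
    ∃ 𝒞 : Set (Set G), #𝒞 ≤ ℵ₁ ∧ 𝒦 ⊆ 𝒞 ∧ Clo 𝒞 ∧ ∀ K ∈ 𝒞, IsCompact K := by
  have h0 : ℵ₀ ≤ (ℵ₁ : Cardinal.{0}) := aleph0_lt_aleph_one.le
  have hmono := Cof_mono 𝒦
  refine ⟨⋃ n, Cof_St 𝒦 n, ?_, ?_, ⟨?_, ?_, ?_, ?_⟩, ?_⟩
  · calc #(⋃ n, Cof_St 𝒦 n) ≤ #ℕ * ⨆ n, #(Cof_St 𝒦 n) := mk_iUnion_le _
      _ ≤ ℵ₁ * ℵ₁ := mul_le_mul' (mk_le_aleph0.trans h0) (ciSup_le' fun n => Cof_card 𝒦 hc n)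
      _ = ℵ₁ := mul_eq_self h0
  · intro K hK
    exact mem_iUnion.2 ⟨0, Or.inl hK⟩
  · intro g
    exact mem_iUnion.2 ⟨0, Or.inr ⟨g, rfl⟩⟩
  · intro A hA B hB
    obtain ⟨n, hn⟩ := mem_iUnion.1 hA
    obtain ⟨m, hm⟩ := mem_iUnion.1 hB
    exact mem_iUnion.2 ⟨max n m + 1, Or.inl (Or.inl (Or.inr
      ⟨A, hmono (le_max_left n m) hn, B, hmono (le_max_right n m) hm, rfl⟩))⟩
  · intro A hA B hB
    obtain ⟨n, hn⟩ := mem_iUnion.1 hA
    obtain ⟨m, hm⟩ := mem_iUnion.1 hB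
    exact mem_iUnion.2 ⟨max n m + 1, Or.inl (Or.inr
      ⟨A, hmono (le_max_left n m) hn, B, hmono (le_max_right n m) hm, rfl⟩)⟩
  · intro A hA
    obtain ⟨n, hn⟩ := mem_iUnion.1 hA
    exact mem_iUnion.2 ⟨n + 1, Or.inr ⟨A, hn, rfl⟩⟩
  · intro K hK
    obtain ⟨n, hn⟩ := mem_iUnion.1 hK
    clear hK
    induction n generalizing K with
    | zero =>
      rcases hn with hn | ⟨g, rfl⟩
      · exact h K hn
      · exact isCompact_singleton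
    | succ n ih =>
      rcases hn with ((hn | ⟨A, hA, B, hB, rfl⟩) | ⟨A, hA, B, hB, rfl⟩) | ⟨A, hA, rfl⟩
      · exact ih K hn
      · exact (ih A hA).union (ih B hB)
      · exact (ih A hA).mul (ih B hB)
      · exact (ih A hA).inv

theorem komega_of_cof {G : Type} [TopologicalSpace G] [T2Space G] {𝒦 𝒟 : Set (Set G)} (h : Det 𝒦)
    (hD : 𝒟.Countable) (hDc : ∀ D ∈ 𝒟, IsCompact D) (hcof : ∀ K ∈ 𝒦, ∃ D ∈ 𝒟, K ⊆ D)
    (hs : ∀ g : G, ∃ D ∈ 𝒟, g ∈ D) (g₀ : G) : IsKOmega G := by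
  obtain ⟨D₀, hD₀, -⟩ := hs g₀
  obtain ⟨D, rfl⟩ := hD.exists_eq_range ⟨D₀, hD₀⟩
  have hDn : ∀ n, IsCompact (D n) := fun n => hDc _ ⟨n, rfl⟩
  refine ⟨fun n => ↥(D n), fun n => inferInstance,
    fun n => isCompact_iff_compactSpace.mp (hDn n), fun p => (p.2 : G), ?_⟩
  have hcont : Continuous (fun p : (Σ n, ↥(D n)) => (p.2 : G)) :=
    continuous_sigma fun n => continuous_subtype_val
  rw [isQuotientMap_iff_isClosed]
  refine ⟨?_, ?_⟩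
  · intro g
    obtain ⟨-, ⟨n, rfl⟩, hg⟩ := hs g
    exact ⟨⟨n, ⟨g, hg⟩⟩, rfl⟩
  · intro A
    refine ⟨fun h9 => h9.preimage hcont, fun h9 => ?_⟩
    have hcl : ∀ n, IsClosed (A ∩ D n) := by
      intro n
      have h1 : IsClosed {x : ↥(D n) | (x : G) ∈ A} := by
        have := isClosed_sigma_iff.mp h9 n
        exact this
      have h2 := (hDn n).isClosed.isClosedEmbedding_subtypeVal.isClosedMap _ h1
      have h3 : (Subtype.val '' {x : ↥(D n) | (x : G) ∈ A}) = A ∩ D n := by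
        ext x
        constructor
        · rintro ⟨y, hy, rfl⟩
          exact ⟨hy, y.2⟩
        · rintro ⟨h4, h5⟩
          exact ⟨⟨x, h5⟩, h4, rfl⟩
      rwa [h3] at h2
    refine h.2 A fun K hK => ?_
    obtain ⟨-, ⟨n, rfl⟩, hKn⟩ := hcof K hK
    have h1 : A ∩ K = (A ∩ D n) ∩ K := by
      ext x
      exact ⟨fun hx => ⟨⟨hx.1, hKn hx.2⟩, hx.2⟩, fun hx => ⟨hx.1.1, hx.2⟩⟩
    rw [h1]
    exact (hcl n).inter (h.1 K hK).isClosed

theorem exists_small {G I : Type} [Group G] [TopologicalSpace G] [T2Space G] [LinearOrder I]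
    {𝒦 𝒞 : Set (Set G)} (h : Det 𝒦) (hn : ¬ IsKOmega G) (hsub : 𝒦 ⊆ 𝒞) (hC : Clo 𝒞)
    (hc : ∀ K ∈ 𝒞, IsCompact K) (hcard : #𝒞 ≤ ℵ₁) (hI : Om I) :
    ∃ C : I → Set G, (∀ i, C i ∈ 𝒞) ∧ Small C 𝒞 := by
  classical
  have hle : #𝒞 ≤ #I := by
    refine hcard.trans (aleph_one_le_iff.2 ?_)
    rw [← not_le]
    intro h1
    have h2 : Countable I := Cardinal.mk_le_aleph0_iff.1 h1
    exact hI.unc countable_univ
  obtain ⟨f⟩ := hle
  have : Nonempty 𝒞 := ⟨⟨{1}, hC.sing 1⟩⟩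
  have hsur : Function.Surjective (Function.invFun f) := Function.invFun_surjective f.injective
  set e : I → Set G := fun i => (Function.invFun f i : 𝒞) with he
  have heC : ∀ i, e i ∈ 𝒞 := fun i => (Function.invFun f i).2
  have hes : ∀ K ∈ 𝒞, ∃ i, e i = K := by
    intro K hK
    obtain ⟨i, hi⟩ := hsur ⟨K, hK⟩
    exact ⟨i, by rw [he]; simp only [hi]⟩
  have hex : ∀ i : I, ∃ K ∈ 𝒞, ∀ j ≤ i, ¬ K ⊆ e j := by
    intro i
    by_contra hcon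
    push Not at hcon
    refine hn (komega_of_cof (𝒟 := e '' Iic i) h ((hI.init i).image e) ?_ ?_ ?_ 1)
    · rintro - ⟨j, -, rfl⟩
      exact hc _ (heC j)
    · intro K hK
      obtain ⟨j, hj, hKj⟩ := hcon K (hsub hK)
      exact ⟨e j, ⟨j, hj, rfl⟩, hKj⟩
    · intro g
      obtain ⟨j, hj, hKj⟩ := hcon {g} (hC.sing g)
      exact ⟨e j, ⟨j, hj, rfl⟩, hKj rfl⟩
  choose C hCC hCn using hex
  refine ⟨C, hCC, ?_⟩
  intro K hK
  obtain ⟨j, rfl⟩ := hes K hK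
  refine (hI.init j).mono ?_
  intro a ha
  by_contra hja
  exact hCn a j (not_le.1 hja).le ha

theorem exists_om : ∃ (I : Type) (_ : LinearOrder I), Om I := by
  refine ⟨(ℵ₁ : Cardinal.{0}).ord.ToType, inferInstance, ?_, ?_, ?_⟩
  · intro h
    have h1 := Set.countable_univ_iff.1 h
    have h2 : #((ℵ₁ : Cardinal.{0}).ord.ToType) ≤ ℵ₀ := Cardinal.mk_le_aleph0_iff.2 h1
    rw [mk_ord_toType] at h2
    exact absurd aleph0_lt_aleph_one (not_lt.2 h2)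
  · rw [mk_ord_toType]
  · intro i
    have h1 : #(Iio i) < ℵ₁ := by
      simpa using mk_Iio_lt i
    have h2 : (Iio i).Countable := Cardinal.le_aleph0_iff_set_countable.1 (lt_aleph_one_iff.1 h1)
    have h3 : Iic i = insert i (Iio i) := by
      ext x
      simp [le_iff_eq_or_lt]
    rw [h3]
    exact h2.insert i

end Pool.Agent.MAK
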