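import Pool.Agent.MAK.Pos
import Pool.Agent.MAK.Ccc

/-!
# MAK/Core: the set given by Martin's axiom

Let `A`, `Z` be given by `generic`.  If `1` is not in the closure of `A`, there is an open `V`, `1 ∈ V`, `V * V ⊆ Aᶜ`.  Every compact `C a` is contained in `F * V` for a finite `F`.  `Finset G` is
countable: for one `F` the set `Y = {a ∈ Z | C a ⊆ F * V}` is uncountable.  It has an infinite countable subset `Y₀`, and some `b ∈ Y` is larger than all elements of `Y₀`.  All `a ∈ Y₀` satisfy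
`a ∈ Z`, `a < b`, `¬ Bad C A F a b` (`W = V`): contradiction to the last claim of `generic`.
-/

set_option autoImplicit false

namespace Pool.Agent.MAK

open Set Topology Cardinal Pointwise

theorem core_of_ccc (hMA : MAOne) {G I : Type} [Group G] [TopologicalSpace G]
    [IsTopologicalGroup G] [Countable G] [LinearOrder I] (hI : Om I) {𝒞 : Set (Set G)}
    (hC : CloW 𝒞) (hcard : #𝒞 ≤ ℵ₁) {C : I → Set G} (hccc : CCC (Cond C 𝒞))
    (hcomp : ∀ a, IsCompact (C a)) :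
    ∃ A : Set G, 1 ∉ A ∧ (∀ K ∈ 𝒞, (A ∩ K).Finite) ∧ 1 ∈ closure A := by
  obtain ⟨A, Z, h1A, hfin, hZ, hbad⟩ := generic hMA hI hC hcard hccc
  refine ⟨A, h1A, hfin, ?_⟩
  by_contra h1c
  obtain ⟨V, hVo, h1V, hVV⟩ := exists_open_nhds_one_mul_subset
    (isClosed_closure.isOpen_compl.mem_nhds h1c)
  have hcov : ∀ a : I, ∃ F : Finset G, C a ⊆ (F : Set G) * V := by
    intro a
    obtain ⟨t, ht⟩ := (hcomp a).elim_finite_subcover (fun g : G => g • V)
      (fun g => hVo.smul g) (fun c _ => mem_iUnion.2 ⟨c, mem_smul_set.2 ⟨1, h1V, mul_one c⟩⟩)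
    refine ⟨t, fun c hca => ?_⟩
    obtain ⟨g, hg, hcg⟩ := mem_iUnion₂.1 (ht hca)
    obtain ⟨v, hv, rfl⟩ := mem_smul_set.1 hcg
    exact mem_mul.2 ⟨g, hg, v, hv, rfl⟩
  obtain ⟨F, hF⟩ : ∃ F : Finset G, ¬ {a | a ∈ Z ∧ C a ⊆ (F : Set G) * V}.Countable := by
    by_contra hcon
    push Not at hcon
    refine hZ ((Set.countable_iUnion hcon).mono ?_)
    intro a ha
    obtain ⟨F, hF⟩ := hcov a
    exact mem_iUnion.2 ⟨F, ha, hF⟩
  have hinf : {a | a ∈ Z ∧ C a ⊆ (F : Set G) * V}.Infinite := fun h' => hF h'.countable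
  obtain ⟨b, hb, hbn⟩ : ∃ b ∈ {a | a ∈ Z ∧ C a ⊆ (F : Set G) * V},
      b ∉ ⋃ n, Iic (hinf.natEmbedding _ n : I) := by
    by_contra hcon
    push Not at hcon
    exact hF ((Set.countable_iUnion fun n => hI.init _).mono hcon)
  have hlt : ∀ n, (hinf.natEmbedding _ n : I) < b := by
    intro n
    by_contra hle
    exact hbn (mem_iUnion.2 ⟨n, not_lt.1 hle⟩)
  have hrange : (range fun n => (hinf.natEmbedding _ n : I)).Infinite :=
    infinite_range_of_injective fun m n hmn =>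
      (hinf.natEmbedding _).injective (Subtype.ext hmn)
  refine hrange ((hbad b hb.1 F).subset ?_)
  rintro - ⟨n, rfl⟩
  refine ⟨(hinf.natEmbedding _ n).2.1, hlt n, fun hB => ?_⟩
  obtain ⟨x, hx, y, hy, hxy⟩ := hB V h1V (union_subset (hinf.natEmbedding _ n).2.2 hb.2)
  exact hVV (mul_mem_mul hx hy) (subset_closure hxy)

theorem core (hMA : MAOne) {G I : Type} [Group G] [TopologicalSpace G] [IsTopologicalGroup G]
    [Countable G] [LinearOrder I] (hI : Om I) {𝒞 : Set (Set G)} (hC : CloW 𝒞) (hcard : #𝒞 ≤ ℵ₁)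
    {C : I → Set G} (hs : SmallW C 𝒞) (hcomp : ∀ a, IsCompact (C a)) :
    ∃ A : Set G, 1 ∉ A ∧ (∀ K ∈ 𝒞, (A ∩ K).Finite) ∧ 1 ∈ closure A :=
  core_of_ccc hMA hI hC hcard (ccc hI.init hC hs) hcomp

end Pool.Agent.MAK
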