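import Pool.Agent.ASG.Defs

/-!
# Martin's axiom and countable groups determined by `ℵ₁` compact sets (project MAK, MP_a9e3cf_lc): definitions

Proof on paper: /team-store/helper28_mak_proof.md.
-/

set_option autoImplicit false

namespace Pool.Agent.MAK

open Set Topology Cardinal Pointwise

/-- every antichain of `P` is countable -/
def CCC (P : Type) [Preorder P] : Prop :=
  ∀ S : Set P, (∀ p ∈ S, ∀ q ∈ S, p ≠ q → ¬ ∃ r, r ≤ p ∧ r ≤ q) → S.Countable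

/-- Martin's axiom for `ℵ₁` dense sets: every family of at most `ℵ₁` dense subsets of a partial order whose antichains
are countable is met by a filter -/
def MAOne : Prop :=
  ∀ (P : Type) [Preorder P] [Nonempty P], CCC P → ∀ 𝒟 : Set (Set P), #𝒟 ≤ ℵ₁ →
    (∀ D ∈ 𝒟, ∀ p, ∃ q ∈ D, q ≤ p) →
    ∃ Γ : Set P, (∀ p ∈ Γ, ∀ q, p ≤ q → q ∈ Γ) ∧ (∀ p ∈ Γ, ∀ q ∈ Γ, ∃ r ∈ Γ, r ≤ p ∧ r ≤ q) ∧
      ∀ D ∈ 𝒟, (D ∩ Γ).Nonempty

/-- `𝒦` is a family of compact sets which determines the topology of `G` -/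
def Det {G : Type} [TopologicalSpace G] (𝒦 : Set (Set G)) : Prop :=
  (∀ K ∈ 𝒦, IsCompact K) ∧ ∀ A : Set G, (∀ K ∈ 𝒦, IsClosed (A ∩ K)) → IsClosed A

/-- contains the singletons, closed under unions, products and inverses -/
structure Clo {G : Type} [Group G] (𝒞 : Set (Set G)) : Prop where
  sing : ∀ g : G, {g} ∈ 𝒞
  union : ∀ A ∈ 𝒞, ∀ B ∈ 𝒞, A ∪ B ∈ 𝒞
  mul : ∀ A ∈ 𝒞, ∀ B ∈ 𝒞, A * B ∈ 𝒞
  inv : ∀ A ∈ 𝒞, A⁻¹ ∈ 𝒞

/-- an index set like `ω₁` -/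
structure Om (I : Type) [LinearOrder I] : Prop where
  unc : ¬ (univ : Set I).Countable
  le : #I ≤ ℵ₁
  init : ∀ i : I, (Iic i).Countable

/-- for every `K ∈ 𝒞` only countably many `a` satisfy `C a ⊆ K` -/
def Small {G I : Type} (C : I → Set G) (𝒞 : Set (Set G)) : Prop :=
  ∀ K ∈ 𝒞, {a | C a ⊆ K}.Countable

/-- contains `{1}`, closed under unions and inverses -/
structure CloW {G : Type} [Group G] (𝒞 : Set (Set G)) : Prop where
  one : {1} ∈ 𝒞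
  union : ∀ A ∈ 𝒞, ∀ B ∈ 𝒞, A ∪ B ∈ 𝒞
  inv : ∀ A ∈ 𝒞, A⁻¹ ∈ 𝒞

theorem Clo.toW {G : Type} [Group G] {𝒞 : Set (Set G)} (h : Clo 𝒞) : CloW 𝒞 := ⟨h.sing 1, h.union, h.inv⟩

/-- for all `K ∈ 𝒞` and finite `F` only countably many `a` satisfy `C a ⊆ F * (K * K)` -/
def SmallW {G I : Type} [Group G] (C : I → Set G) (𝒞 : Set (Set G)) : Prop :=
  ∀ K ∈ 𝒞, ∀ F : Finset G, {a | C a ⊆ (F : Set G) * (K * K)}.Countable

/-- every set `W` which contains `1`, with `C a ∪ C b ⊆ F * W`, has two elements with product in `A` -/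
def Bad {G I : Type} [Group G] (C : I → Set G) (A F : Set G) (a b : I) : Prop :=
  ∀ W : Set G, 1 ∈ W → C a ∪ C b ⊆ F * W → ∃ x ∈ W, ∃ y ∈ W, x * y ∈ A

theorem Bad.mono {G I : Type} [Group G] {C : I → Set G} {A A' F F' : Set G} {a b : I}
    (h : Bad C A F a b) (hA : A ⊆ A') (hF : F' ⊆ F) : Bad C A' F' a b := by
  intro W h1 hW
  obtain ⟨x, hx, y, hy, hxy⟩ := h W h1 (hW.trans (mul_subset_mul_right hF))
  exact ⟨x, hx, y, hy, hA hxy⟩

/-- the conditions -/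
structure Cond {G I : Type} [Group G] (C : I → Set G) (𝒞 : Set (Set G)) where
  A : Finset G
  K : Set G
  Z : Finset I
  F : Finset G
  hA : (1 : G) ∉ A
  hK : K ∈ 𝒞
  hi : K⁻¹ = K
  h1 : (1 : G) ∈ K

section

variable {G I : Type} [Group G] [LinearOrder I] {C : I → Set G} {𝒞 : Set (Set G)}

/-- `q` is stronger than `p` -/
structure Cond.Le (q p : Cond C 𝒞) : Prop where
  A : p.A ⊆ q.A
  K : p.K ⊆ q.K
  Z : p.Z ⊆ q.Z
  F : p.F ⊆ q.F
  new : ∀ x ∈ q.A, x ∈ p.K → x ∈ p.A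
  bad : ∀ a ∈ q.Z, a ∉ p.Z → ∀ b ∈ p.Z, a < b → Bad C (q.A : Set G) (p.F : Set G) a b

instance : Preorder (Cond C 𝒞) where
  le q p := Cond.Le q p
  le_refl p := ⟨subset_rfl, subset_rfl, subset_rfl, subset_rfl, fun _ h _ => h,
    fun _ h h' => (h' h).elim⟩
  le_trans r q p hrq hqp := by
    refine ⟨hqp.A.trans hrq.A, hqp.K.trans hrq.K, hqp.Z.trans hrq.Z, hqp.F.trans hrq.F, ?_, ?_⟩
    · intro x hx hxp
      exact hqp.new x (hrq.new x hx (hqp.K hxp)) hxp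
    · intro a ha ha' b hb hab
      by_cases h : a ∈ q.Z
      · exact (hqp.bad a h ha' b hb hab).mono (Finset.coe_subset.2 hrq.A) subset_rfl
      · exact (hrq.bad a ha h b (hqp.Z hb) hab).mono subset_rfl (Finset.coe_subset.2 hqp.F)

theorem le_def {q p : Cond C 𝒞} : q ≤ p ↔ Cond.Le q p := Iff.rfl

end

end Pool.Agent.MAK
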