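import Mathlib

/-!
# MAK/Del: uncountable families of finite sets

PROOF PLAN.
`delta`: `S` is the union over `n` of `{x ∈ S | (Z x).card = n}`, so one of them is uncountable; induction on `n` (for all `Z`, `S`).
If for every `c` the set `{x ∈ S | ∃ a ∈ Z x, a ≤ c}` is countable, `R = ∅`, `T = S` (this is the case if `n = 0`).  Otherwise for some `c`
it is uncountable, and since `Iic c` is countable there is `a` such that `S' = {x ∈ S | a ∈ Z x}` is uncountable; apply the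
induction hypothesis to `fun x => (Z x).erase a` and `S'`: `R'`, `T`; put `R = insert a R'`.
`condens`: the set of the `x ∈ S` for which there are finite sets `N`, `M` with `∀ g ∈ N, (g ∈ L x ↔ g ∈ M)` such that
`{y ∈ S | ∀ g ∈ N, (g ∈ L y ↔ g ∈ M)}` is countable, is a countable union of countable sets (`Finset G × Finset G` is countable);
take `x₀ ∈ S` outside of it, and for `N` use `M = N.filter (· ∈ L x₀)`.
-/

set_option autoImplicit false

namespace Pool.Agent.MAK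

open Set

private theorem Del_aux {X I : Type} [LinearOrder I] (hI : ∀ i : I, (Iic i).Countable) (n : ℕ) :
    ∀ (Z : X → Finset I) (S : Set X), ¬ S.Countable → (∀ x ∈ S, (Z x).card = n) →
    ∃ (R : Finset I) (T : Set X), T ⊆ S ∧ ¬ T.Countable ∧ (∀ x ∈ T, R ⊆ Z x) ∧
      ∀ c : I, {x | x ∈ T ∧ ∃ a ∈ Z x, a ∉ R ∧ a ≤ c}.Countable := by
  induction n with
  | zero =>
    intro Z S hS hn
    refine ⟨∅, S, subset_rfl, hS, fun x _ => Finset.empty_subset _, fun c => ?_⟩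
    refine Set.countable_empty.mono ?_
    rintro x ⟨hx, a, ha, -, -⟩
    rw [Finset.card_eq_zero.1 (hn x hx)] at ha
    exact absurd ha (Finset.notMem_empty a)
  | succ n ih =>
    intro Z S hS hn
    by_cases h : ∀ c : I, {x | x ∈ S ∧ ∃ a ∈ Z x, a ≤ c}.Countable
    · refine ⟨∅, S, subset_rfl, hS, fun x _ => Finset.empty_subset _, fun c => ?_⟩
      refine (h c).mono ?_
      rintro x ⟨hx, a, ha, -, hac⟩
      exact ⟨hx, a, ha, hac⟩
    · push Not at h
      obtain ⟨c, hc⟩ := h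
      have h2 : ∃ a ∈ Iic c, ¬ {x | x ∈ S ∧ a ∈ Z x}.Countable := by
        by_contra hcon
        push Not at hcon
        refine hc (((hI c).biUnion hcon).mono ?_)
        rintro x ⟨hx, a, ha, hac⟩
        exact mem_biUnion (show a ∈ Iic c from hac) (show x ∈ {x | x ∈ S ∧ a ∈ Z x} from ⟨hx, ha⟩)
      obtain ⟨a, -, ha⟩ := h2
      obtain ⟨R, T, hTS, hT, hR, hC⟩ := ih (fun x => (Z x).erase a) {x | x ∈ S ∧ a ∈ Z x} ha
        (fun x hx => by
          rw [Finset.card_erase_of_mem hx.2, hn x hx.1]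
          rfl)
      refine ⟨insert a R, T, fun x hx => (hTS hx).1, hT, fun x hx => ?_, fun c' => ?_⟩
      · refine Finset.insert_subset (hTS hx).2 ?_
        exact (hR x hx).trans (Finset.erase_subset _ _)
      · refine (hC c').mono ?_
        rintro x ⟨hx, b, hb, hbR, hbc⟩
        rw [Finset.mem_insert, not_or] at hbR
        exact ⟨hx, b, Finset.mem_erase.2 ⟨hbR.1, hb⟩, hbR.2, hbc⟩

theorem delta {X I : Type} [LinearOrder I] (hI : ∀ i : I, (Iic i).Countable) (Z : X → Finset I)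
    (S : Set X) (hS : ¬ S.Countable) :
    ∃ (R : Finset I) (T : Set X), T ⊆ S ∧ ¬ T.Countable ∧ (∀ x ∈ T, R ⊆ Z x) ∧
      ∀ c : I, {x | x ∈ T ∧ ∃ a ∈ Z x, a ∉ R ∧ a ≤ c}.Countable := by
  have h1 : ∃ n : ℕ, ¬ {x | x ∈ S ∧ (Z x).card = n}.Countable := by
    by_contra hcon
    push Not at hcon
    refine hS ((Set.countable_iUnion hcon).mono ?_)
    intro x hx
    exact mem_iUnion.2 ⟨(Z x).card, hx, rfl⟩
  obtain ⟨n, hn⟩ := h1
  obtain ⟨R, T, hTS, hT, hR, hC⟩ := Del_aux hI n Z {x | x ∈ S ∧ (Z x).card = n} hn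
    (fun x hx => hx.2)
  exact ⟨R, T, fun x hx => (hTS hx).1, hT, hR, hC⟩

theorem condens {X G : Type} [Countable G] (L : X → Set G) (S : Set X) (hS : ¬ S.Countable) :
    ∃ x₀ ∈ S, ∀ N : Finset G, ¬ {x | x ∈ S ∧ ∀ g ∈ N, (g ∈ L x ↔ g ∈ L x₀)}.Countable := by
  classical
  by_contra hcon
  push Not at hcon
  refine hS ?_
  have h1 : (⋃ p ∈ {p : Finset G × Finset G |
      {y | y ∈ S ∧ ∀ g ∈ p.1, (g ∈ L y ↔ g ∈ p.2)}.Countable},
      {y | y ∈ S ∧ ∀ g ∈ p.1, (g ∈ L y ↔ g ∈ p.2)}).Countable :=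
    (Set.to_countable _).biUnion fun p hp => hp
  refine h1.mono ?_
  intro x hx
  obtain ⟨N, hN⟩ := hcon x hx
  have h2 : ∀ y, (∀ g ∈ N, (g ∈ L y ↔ g ∈ N.filter (· ∈ L x))) ↔
      ∀ g ∈ N, (g ∈ L y ↔ g ∈ L x) := by
    intro y
    refine forall₂_congr fun g hg => ?_
    rw [Finset.mem_filter]
    constructor
    · intro h
      exact ⟨fun h3 => (h.1 h3).2, fun h3 => h.2 ⟨hg, h3⟩⟩
    · intro h
      exact ⟨fun h3 => ⟨hg, h.1 h3⟩, fun h3 => h.2 h3.2⟩
  have h3 : {y | y ∈ S ∧ ∀ g ∈ N, (g ∈ L y ↔ g ∈ N.filter (· ∈ L x))}.Countable := by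
    refine hN.mono ?_
    rintro y ⟨hy, h4⟩
    exact ⟨hy, (h2 y).1 h4⟩
  refine mem_biUnion (x := ((N, N.filter (· ∈ L x)) : Finset G × Finset G)) h3 ?_
  exact ⟨hx, (h2 x).2 fun g _ => Iff.rfl⟩

end Pool.Agent.MAK
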