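import Pool.Agent.MAK.DichF

/-!
# MAK/Dic: the dichotomy as a property of the group

`Dic G`: for all `p : R → G`, `g`, `P`: countably many sets in `P` are small near `g`, or at most `ℵ₁` sets outside `P` catch the sets converging to `g`.
`LocOne G`: at most `ℵ₁` decreasing sequences `Q j` of sets, each a network at `1`, such that every sequence which converges to `1` meets all sets `Q j n` of one of them in infinite sets.
-/

set_option autoImplicit false

namespace Pool.Agent.MAK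

open Set Topology Filter Cardinal
open Pool.Agent.ASG (ConvTo)
open Pool.Agent.CSD (Cont)

/-- the dichotomy -/
def Dic (G : Type) [TopologicalSpace G] : Prop :=
  ∀ (R : Type) (p : R → G) (g : G) (P : Set R → Prop),
    (∃ V : ℕ → Set R, (∀ i, P (V i)) ∧ ∀ O : Set G, IsOpen O → g ∈ O → ∃ i, V i ⊆ p ⁻¹' O) ∨
    (∃ (J : Type) (V : J → Set R), #J ≤ ℵ₁ ∧ (∀ j, ¬ P (V j)) ∧
      ∀ C : Set R, ConvTo p C g → ∃ j, (C ∩ V j).Infinite)

/-- `Q j` are at most `ℵ₁` decreasing sequences, networks at `1`, which catch the sequences converging to `1` -/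
structure Loc {G J : Type} [Group G] [TopologicalSpace G] (Q : J → ℕ → Set G) : Prop where
  card : #J ≤ ℵ₁
  anti : ∀ j, Antitone (Q j)
  mem : ∀ j n, (1 : G) ∈ Q j n
  small : ∀ j, ∀ O : Set G, IsOpen O → 1 ∈ O → ∃ n, Q j n ⊆ O
  ctch : ∀ C : Set G, ConvTo id C 1 → ∃ j, ∀ n, (C ∩ Q j n).Infinite

theorem Loc.dic {G J : Type} [Group G] [TopologicalSpace G] [IsTopologicalGroup G] [T2Space G] [Nonempty J]
    {Q : J → ℕ → Set G} (h : Loc Q) : Dic G := by
  classical
  intro R p g P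
  have hlim : ∀ C : Set R, ConvTo p C g → ∃ j, ∀ n, (C ∩ p ⁻¹' {x | g⁻¹ * x ∈ Q j n}).Infinite := by
    intro C hC
    by_cases hg : (C ∩ p ⁻¹' {g}).Infinite
    · refine ⟨Classical.arbitrary J, fun n => hg.mono ?_⟩
      rintro c ⟨hc, hcg⟩
      refine ⟨hc, ?_⟩
      show g⁻¹ * p c ∈ Q (Classical.arbitrary J) n
      rw [show p c = g from hcg, inv_mul_cancel]
      exact h.mem _ _
    · rw [not_infinite] at hg
      set D : Set G := (fun c => g⁻¹ * p c) '' (C \ p ⁻¹' {g}) with hD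
      have hfib : ∀ x : G, x ≠ 1 → (C ∩ {c | g⁻¹ * p c = x}).Finite := by
        intro x hx
        have hO : IsOpen ({g * x}ᶜ : Set G) := isOpen_compl_singleton
        refine (hC.2 _ hO ?_).subset ?_
        · intro h3
          apply hx
          have h4 : g = g * x := h3
          exact (mul_eq_left.1 h4.symm)
        · rintro c ⟨hc, hcx⟩
          refine ⟨hc, fun h3 => h3 ?_⟩
          show p c = g * x
          rw [← show g⁻¹ * p c = x from hcx, mul_inv_cancel_left]
      have hCi : (C \ p ⁻¹' {g}).Infinite := by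
        intro hf
        apply hC.1
        refine (hf.union hg).subset ?_
        intro c hc
        by_cases h3 : c ∈ p ⁻¹' {g}
        · exact Or.inr ⟨hc, h3⟩
        · exact Or.inl ⟨hc, h3⟩
      have hDi : D.Infinite := by
        intro hf
        apply hCi
        have h3 : (⋃ x ∈ D, (C ∩ {c | g⁻¹ * p c = x})).Finite := by
          refine hf.biUnion ?_
          rintro x ⟨c, hc, rfl⟩
          apply hfib
          intro h4
          apply hc.2
          show p c = g
          exact (inv_mul_eq_one.1 h4).symm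
        refine h3.subset ?_
        intro c hc
        exact mem_biUnion (mem_image_of_mem _ hc) ⟨hc.1, rfl⟩
      have hDc : ConvTo id D 1 := by
        refine ⟨hDi, fun O hO h1 => ?_⟩
        have h3 : IsOpen {x : G | g⁻¹ * x ∈ O} := hO.preimage (continuous_const_mul g⁻¹)
        refine ((hC.2 _ h3 (by simpa using h1)).image (fun c => g⁻¹ * p c)).subset ?_
        rintro x ⟨⟨c, hc, rfl⟩, hx⟩
        exact ⟨c, ⟨hc.1, hx⟩, rfl⟩
      obtain ⟨j, hj⟩ := h.ctch D hDc
      refine ⟨j, fun n hf => hj n ?_⟩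
      refine (hf.image (fun c => g⁻¹ * p c)).subset ?_
      rintro x ⟨⟨c, hc, rfl⟩, hx⟩
      exact ⟨c, ⟨hc.1, hx⟩, rfl⟩
  by_cases hP : ∃ j, ∀ n, P (p ⁻¹' {x | g⁻¹ * x ∈ Q j n})
  · obtain ⟨j, hj⟩ := hP
    left
    refine ⟨fun n => p ⁻¹' {x | g⁻¹ * x ∈ Q j n}, hj, fun O hO hgO => ?_⟩
    have h3 : IsOpen {x : G | g * x ∈ O} := hO.preimage (continuous_const_mul g)
    obtain ⟨n, hn⟩ := h.small j _ h3 (by simpa using hgO)
    refine ⟨n, fun c hc => ?_⟩
    have h4 : g * (g⁻¹ * p c) ∈ O := hn hc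
    rwa [mul_inv_cancel_left] at h4
  · push Not at hP
    choose n hn using hP
    right
    refine ⟨J, fun j => p ⁻¹' {x | g⁻¹ * x ∈ Q j (n j)}, h.card, hn, fun C hC => ?_⟩
    obtain ⟨j, hj⟩ := hlim C hC
    exact ⟨j, hj _⟩

theorem dic_of_an {G ι : Type} [Group G] [TopologicalSpace G] [IsTopologicalGroup G] [T2Space G]
    (hι : #ι ≤ ℵ₁) {f : ι → (ℕ → ℕ) → ℕ → G} (hf : ∀ i, Cont (f i))
    (hlim : ∀ i w, Tendsto (f i w) atTop (𝓝 1))
    (hdet : ∀ U : Set G, (∀ x ∈ U, ∀ i w, ∀ᶠ n in atTop, x * f i w n ∈ U) → IsOpen U) : Dic G := by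
  intro R p g P
  rcases dichF hf hlim hdet p g P with h1 | ⟨V, h1, h2⟩
  · exact Or.inl h1
  · right
    refine ⟨Option ι × ℕ, V, ?_, h1, h2⟩
    have h01 : ℵ₀ ≤ ℵ₁ := (aleph0_lt_aleph_one).le
    rw [mk_prod, lift_id, lift_id, mk_option]
    refine (mul_le_mul' ((add_le_add hι (one_le_aleph0.trans h01)).trans (add_eq_self h01).le)
      ((mk_le_aleph0 (α := ℕ)).trans h01)).trans (mul_eq_self h01).le

end Pool.Agent.MAK
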