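import Pool.Agent.MAK.Defs
import Pool.Agent.CSD.Dich

/-!
# MAK/DichF: the dichotomy for topologies determined by a family of analytic sets of sequences

`f i w`, `i : ι`, `w` in the Baire space, are sequences converging to `1` which determine the topology of `G`.
-/

set_option autoImplicit false

namespace Pool.Agent.MAK

open Set Topology Filter Cardinal
open Pool.Agent.ASG (ConvTo)
open Pool.Agent.CSD (Cont Ext Tr Sm sm_step chain res)

/-- a set which converges to `g` contains infinitely many points of one of the sequences -/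
theorem trackF {G R W : Type*} [Group G] [TopologicalSpace G] [IsTopologicalGroup G] [T2Space G]
    {s : W → ℕ → G} (hlim : ∀ w, Tendsto (s w) atTop (𝓝 1))
    (hdet : ∀ U : Set G, (∀ x ∈ U, ∀ w, ∀ᶠ n in atTop, x * s w n ∈ U) → IsOpen U)
    {p : R → G} {g : G} {C : Set R} (hC : ∀ O : Set G, IsOpen O → g ∈ O → (C \ p ⁻¹' O).Finite)
    (hi : (C \ p ⁻¹' {g}).Infinite) :
    ∃ w, ∀ N, {c | c ∈ C \ p ⁻¹' {g} ∧ ∃ n, N ≤ n ∧ g * s w n = p c}.Infinite := by
  set A : Set G := p '' (C \ p ⁻¹' {g}) with hA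
  have hgA : g ∉ A := by
    rintro ⟨c, hc, hcg⟩
    exact hc.2 hcg
  have hno : ¬ IsOpen Aᶜ := by
    intro ho
    apply hi
    refine (hC _ ho hgA).subset ?_
    intro c hc
    exact ⟨hc.1, fun h => h ⟨c, hc, rfl⟩⟩
  obtain ⟨x, hx, w, hw⟩ : ∃ x ∈ Aᶜ, ∃ w, ¬ ∀ᶠ n in atTop, x * s w n ∈ Aᶜ := by
    by_contra hcon
    push Not at hcon
    exact hno (hdet _ fun x hx w => hcon x hx w)
  have hfr : ∃ᶠ n in atTop, x * s w n ∈ A := by
    rw [Filter.not_eventually] at hw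
    exact hw.mono fun n hn => by_contra fun h => hn h
  have hxt : Tendsto (fun n => x * s w n) atTop (𝓝 x) := by
    have h5 : Tendsto (fun n => x * s w n) atTop (𝓝 (x * 1)) := (hlim w).const_mul x
    rwa [mul_one] at h5
  have hxg : x = g := by
    by_contra hne
    obtain ⟨O', O, hO', hO, hxO', hgO, hd⟩ := t2_separation hne
    have hF : (p '' (C \ p ⁻¹' O)).Finite := (hC O hO hgO).image p
    have h6 : ∃ᶠ n in atTop, x * s w n ∈ p '' (C \ p ⁻¹' O) := by
      refine (hfr.and_eventually (hxt.eventually (hO'.mem_nhds hxO'))).mono ?_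
      rintro n ⟨⟨c, hc, hcn⟩, hn⟩
      refine ⟨c, ⟨hc.1, fun h7 => ?_⟩, hcn⟩
      rw [← hcn] at hn
      exact disjoint_left.1 hd hn h7
    obtain ⟨c, hc, hcx⟩ := hF.isClosed.mem_of_frequently_of_tendsto h6 hxt
    apply hx
    refine ⟨c, ⟨hc.1, fun h7 => ?_⟩, hcx⟩
    exact hne (hcx.symm.trans h7)
  subst hxg
  refine ⟨w, fun N hfin => ?_⟩
  have hF := hfin.image p
  have h6 : ∃ᶠ n in atTop, x * s w n ∈
      p '' {c | c ∈ C \ p ⁻¹' {x} ∧ ∃ n, N ≤ n ∧ x * s w n = p c} := by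
    refine (hfr.and_eventually (eventually_ge_atTop N)).mono ?_
    rintro n ⟨⟨c, hc, hcn⟩, hn⟩
    exact ⟨c, ⟨hc, n, hn, hcn.symm⟩, hcn⟩
  obtain ⟨c, hc, hcx⟩ := hF.isClosed.mem_of_frequently_of_tendsto h6 hxt
  exact hc.1.2 hcx

/-- the dichotomy -/
theorem dichF {G R ι : Type} [Group G] [TopologicalSpace G] [IsTopologicalGroup G] [T2Space G]
    {f : ι → (ℕ → ℕ) → ℕ → G} (hf : ∀ i, Cont (f i))
    (hlim : ∀ i w, Tendsto (f i w) atTop (𝓝 1))
    (hdet : ∀ U : Set G, (∀ x ∈ U, ∀ i w, ∀ᶠ n in atTop, x * f i w n ∈ U) → IsOpen U)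
    (p : R → G) (g : G) (P : Set R → Prop) :
    (∃ V : ℕ → Set R, (∀ i, P (V i)) ∧
      ∀ O : Set G, IsOpen O → g ∈ O → ∃ i, V i ⊆ p ⁻¹' O) ∨
    (∃ V : Option ι × ℕ → Set R, (∀ j, ¬ P (V j)) ∧
      ∀ C : Set R, ConvTo p C g → ∃ j, (C ∩ V j).Infinite) := by
  classical
  by_cases h0 : P (p ⁻¹' {g})
  · left
    exact ⟨fun _ => p ⁻¹' {g}, fun _ => h0, fun O _ hg => ⟨0, preimage_mono
      (singleton_subset_iff.2 hg)⟩⟩
  by_cases h1 : ∀ i, Sm (f i) p g P []
  · right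
    have h2 : ∀ i, ∃ V : ℕ → Set R, (∀ k, ¬ P (V k)) ∧
        ∀ w, ∀ C, Tr (f i) p g w C → ∃ k, (C ∩ V k).Infinite := by
      intro i
      obtain ⟨𝒮, hc, hP, hS⟩ := h1 i
      obtain ⟨V, hV⟩ := (hc.insert (p ⁻¹' {g})).exists_eq_range (insert_nonempty _ _)
      refine ⟨V, fun k => ?_, fun w C hC => ?_⟩
      · have h2 : V k ∈ insert (p ⁻¹' {g}) 𝒮 := hV ▸ mem_range_self k
        rcases h2 with h2 | h2
        · rw [h2]
          exact h0
        · exact hP _ h2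
      · obtain ⟨S, hSS, hSi⟩ := hS w (by simp [res]) _ hC
        have h2 : S ∈ range V := hV ▸ mem_insert_of_mem _ hSS
        obtain ⟨k, hk⟩ := h2
        refine ⟨k, ?_⟩
        rw [hk]
        exact hSi
    choose V hV hVC using h2
    refine ⟨fun j => Option.elim j.1 (p ⁻¹' {g}) fun i => V i j.2, ?_, fun C hC => ?_⟩
    · rintro ⟨_ | i, k⟩
      · exact h0
      · exact hV i k
    · by_cases h3 : (C ∩ p ⁻¹' {g}).Infinite
      · exact ⟨(none, 0), h3⟩
      · have h4 : (C \ p ⁻¹' {g}).Infinite := by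
          intro h5
          apply hC.1
          rw [← sdiff_union_inter C (p ⁻¹' {g})]
          exact h5.union (not_infinite.1 h3)
        obtain ⟨⟨i, w⟩, hw⟩ := trackF (s := fun iw : ι × (ℕ → ℕ) => f iw.1 iw.2)
          (fun iw => hlim iw.1 iw.2) (fun U hU => hdet U fun x hx i w => hU x hx (i, w)) hC.2 h4
        obtain ⟨k, hk⟩ := hVC i w _ hw
        exact ⟨(some i, k), hk.mono (inter_subset_inter_left _ sdiff_subset)⟩
  · left
    push Not at h1
    obtain ⟨i₀, h1⟩ := h1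
    have hZ : ∀ v, ¬ Sm (f i₀) p g P v →
        P {x | ∃ v', Ext (f i₀) p g v x v' ∧ ¬ Sm (f i₀) p g P v'} := by
      intro v hv
      by_contra h2
      exact hv (sm_step (hf i₀) v h2)
    have hcount : ((fun v => {x : R | ∃ v', Ext (f i₀) p g v x v' ∧ ¬ Sm (f i₀) p g P v'}) ''
        {v | ¬ Sm (f i₀) p g P v}).Countable := (to_countable _).image _
    obtain ⟨V, hV⟩ := hcount.exists_eq_range ⟨_, [], h1, rfl⟩
    refine ⟨V, fun i => ?_, fun O hO hg => ?_⟩
    · have h2 : V i ∈ (fun v => {x : R | ∃ v', Ext (f i₀) p g v x v' ∧ ¬ Sm (f i₀) p g P v'}) ''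
          {v | ¬ Sm (f i₀) p g P v} := hV ▸ mem_range_self i
      obtain ⟨v, hv, hvi⟩ := h2
      rw [← hvi]
      exact hZ v hv
    · by_contra hcon
      push Not at hcon
      refine chain (hlim i₀) (𝒱 := {v | ¬ Sm (f i₀) p g P v}) (p := p) h1 hO hg ?_
      intro v hv
      have h2 : {x | ∃ v', Ext (f i₀) p g v x v' ∧ ¬ Sm (f i₀) p g P v'} ∈ range V :=
        hV ▸ ⟨v, hv, rfl⟩
      obtain ⟨i, hi⟩ := h2
      have h3 := hcon i
      rw [hi, not_subset] at h3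
      obtain ⟨x, ⟨v', hv', hv2⟩, hx⟩ := h3
      exact ⟨x, v', hv2, hv', hx⟩

end Pool.Agent.MAK
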