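import Pool.Agent.MAK.Defs

/-!
# MAK/Dom: under Martin's axiom `ℵ₁` functions are bounded modulo finite sets

The conditions `(s, g)` fix the first `s` values of the generic function and promise that it is at least `g`.
-/

set_option autoImplicit false

namespace Pool.Agent.MAK

open Set Cardinal Filter

/-- Hechler conditions -/
structure Hc where
  s : ℕ
  g : ℕ → ℕ

/-- `q` is stronger than `p` -/
structure Hc.Le (q p : Hc) : Prop where
  s : p.s ≤ q.s
  g : ∀ k, p.g k ≤ q.g k
  eq : ∀ k < p.s, q.g k = p.g k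

instance : Preorder Hc where
  le q p := Hc.Le q p
  le_refl p := ⟨le_rfl, fun _ => le_rfl, fun _ _ => rfl⟩
  le_trans r q p hrq hqp := ⟨hqp.s.trans hrq.s, fun k => (hqp.g k).trans (hrq.g k),
    fun k hk => (hrq.eq k (lt_of_lt_of_le hk hqp.s)).trans (hqp.eq k hk)⟩

theorem hc_ccc : CCC Hc := by
  intro S hS
  have hinj : InjOn (fun p : Hc => (p.s, (List.range p.s).map p.g)) S := by
    intro p hp q hq h
    by_contra hne
    apply hS p hp q hq hne
    have h1 : p.s = q.s := congrArg Prod.fst h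
    have h2 : (List.range p.s).map p.g = (List.range q.s).map q.g := congrArg Prod.snd h
    rw [← h1] at h2
    have h3 : ∀ k < p.s, p.g k = q.g k := fun k hk =>
      List.map_inj_left.1 h2 k (List.mem_range.2 hk)
    refine ⟨⟨p.s, fun k => max (p.g k) (q.g k)⟩, ⟨le_rfl, fun k => le_max_left _ _, ?_⟩,
      ⟨h1.ge, fun k => le_max_right _ _, ?_⟩⟩
    · intro k hk
      show max (p.g k) (q.g k) = p.g k
      rw [← h3 k hk, max_self]
    · intro k hk
      show max (p.g k) (q.g k) = q.g k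
      rw [h3 k (by rw [h1]; exact hk), max_self]
  exact countable_of_injective_of_countable_image hinj (to_countable _)

theorem dom (hMA : MAOne) {ι : Type} (hι : #ι ≤ ℵ₁) (f : ι → ℕ → ℕ) :
    ∃ g : ℕ → ℕ, ∀ i, ∀ᶠ n in atTop, f i n ≤ g n := by
  have hne : Nonempty Hc := ⟨⟨0, fun _ => 0⟩⟩
  have h01 : ℵ₀ ≤ ℵ₁ := (aleph0_lt_aleph_one).le
  obtain ⟨Γ, -, hdir, hmeet⟩ := hMA Hc hc_ccc
    (range (fun n : ℕ => {p : Hc | n ≤ p.s}) ∪ range (fun i : ι => {p : Hc | ∀ k, p.s ≤ k → f i k ≤ p.g k}))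
    (by
      refine (mk_union_le _ _).trans ?_
      refine (add_le_add (mk_range_le.trans ((mk_le_aleph0 (α := ℕ)).trans h01))
        (mk_range_le.trans hι)).trans ?_
      rw [add_eq_self h01])
    (by
      rintro D (⟨n, rfl⟩ | ⟨i, rfl⟩) p
      · refine ⟨⟨max n p.s, p.g⟩, ?_, ⟨le_max_right _ _, fun _ => le_rfl, fun _ _ => rfl⟩⟩
        show n ≤ max n p.s
        exact le_max_left _ _
      · refine ⟨⟨p.s, fun k => if k < p.s then p.g k else max (p.g k) (f i k)⟩, ?_, ⟨le_rfl, ?_, ?_⟩⟩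
        · intro k hk
          show f i k ≤ if k < p.s then p.g k else max (p.g k) (f i k)
          rw [if_neg (not_lt.2 hk)]
          exact le_max_right _ _
        · intro k
          show p.g k ≤ if k < p.s then p.g k else max (p.g k) (f i k)
          split_ifs
          · exact le_rfl
          · exact le_max_left _ _
        · intro k hk
          show (if k < p.s then p.g k else max (p.g k) (f i k)) = p.g k
          rw [if_pos hk])
  have h1 : ∀ n : ℕ, ∃ p ∈ Γ, n < p.s := by
    intro n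
    obtain ⟨p, hp1, hp2⟩ := hmeet _ (Or.inl ⟨n + 1, rfl⟩)
    exact ⟨p, hp2, hp1⟩
  choose c hc hcs using h1
  refine ⟨fun n => (c n).g n, fun i => ?_⟩
  obtain ⟨p, hp1, hp2⟩ := hmeet _ (Or.inr ⟨i, rfl⟩)
  filter_upwards [eventually_ge_atTop p.s] with n hn
  obtain ⟨r, -, hr1, hr2⟩ := hdir _ (hc n) p hp2
  rw [← hr1.eq n (hcs n)]
  exact (hp1 n hn).trans (hr2.g n)

end Pool.Agent.MAK
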