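import Pool.Agent.MAK.Dom

/-!
# MAK/Esc: a diagonal choice avoiding `ℵ₁` small subsets of `ℕ ^ 3`
-/

set_option autoImplicit false

namespace Pool.Agent.MAK

open Set Cardinal Filter
open Pool.Agent.ASG (Big)

theorem esc {ι : Type} (hdom : ∀ f : ι → ℕ → ℕ, ∃ g : ℕ → ℕ, ∀ i, ∀ᶠ n in atTop, f i n ≤ g n)
    {B : ι → Set (ℕ × ℕ × ℕ)} (hB : ∀ i, ¬ Big (B i)) :
    ∃ (m0 : ℕ → ℕ) (φ : ℕ → ℕ → ℕ), (∀ n m, m ≤ φ n m) ∧
      ∀ i, ∀ᶠ n in atTop, ∀ m, m0 n ≤ m → (n, m, φ n m) ∉ B i := by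
  have hQ : ∀ i, ∀ᶠ n in atTop, ∀ᶠ m in atTop, ∀ᶠ j in atTop, (n, m, j) ∉ B i := by
    intro i
    have h := hB i
    rw [Big, not_frequently] at h
    filter_upwards [h] with n hn
    rw [not_frequently] at hn
    filter_upwards [hn] with m hm
    rw [not_frequently] at hm
    exact hm
  have h1 : ∀ i n, ∃ a, (∀ᶠ m in atTop, ∀ᶠ j in atTop, (n, m, j) ∉ B i) →
      ∀ m, a ≤ m → ∀ᶠ j in atTop, (n, m, j) ∉ B i := by
    intro i n
    by_cases h : ∀ᶠ m in atTop, ∀ᶠ j in atTop, (n, m, j) ∉ B i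
    · obtain ⟨a, ha⟩ := eventually_atTop.1 h
      exact ⟨a, fun _ m hm => ha m hm⟩
    · exact ⟨0, fun h2 => (h h2).elim⟩
  choose a ha using h1
  have h2 : ∀ i n m, ∃ b, (∀ᶠ j in atTop, (n, m, j) ∉ B i) → ∀ j, b ≤ j → (n, m, j) ∉ B i := by
    intro i n m
    by_cases h : ∀ᶠ j in atTop, (n, m, j) ∉ B i
    · obtain ⟨b, hb⟩ := eventually_atTop.1 h
      exact ⟨b, fun _ j hj => hb j hj⟩
    · exact ⟨0, fun h2 => (h h2).elim⟩
  choose b hb using h2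
  obtain ⟨m0, hm0⟩ := hdom a
  obtain ⟨g, hg⟩ := hdom fun i k => b i (Nat.unpair k).1 (Nat.unpair k).2
  refine ⟨m0, fun n m => max m (g (Nat.pair n m)), fun n m => le_max_left _ _, fun i => ?_⟩
  obtain ⟨k0, hk0⟩ := eventually_atTop.1 (hg i)
  filter_upwards [hQ i, hm0 i, eventually_ge_atTop k0] with n h1 h2 h3 m hm
  have h4 : ∀ᶠ j in atTop, (n, m, j) ∉ B i := ha i n h1 m (h2.trans hm)
  apply hb i n m h4
  have h5 := hk0 (Nat.pair n m) (h3.trans (Nat.left_le_pair n m))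
  simp only [Nat.unpair_pair] at h5
  exact h5.trans (le_max_right _ _)

end Pool.Agent.MAK
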