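import Pool.Agent.ASG.FTwo

/-!
# MAK/EscSeq: sequences almost disjoint from countably many sets

If no finite union of the sets `V i` together with `1` is a neighbourhood of `1` in a Frechet-Urysohn group, some infinite set converging to `1` has a finite intersection with every `V i`
(the proof of ASG/FTwo).
-/

set_option autoImplicit false

namespace Pool.Agent.MAK

open Set Topology Filter
open Pool.Agent.ASG (ConvTo idx)

private lemma one_mem {G : Type*} [Group G] [TopologicalSpace G] {L : Set G} (hL : (L ∪ {1}) ∉ 𝓝 (1 : G)) :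
    (1 : G) ∈ closure (Lᶜ \ {1}) := by
  rw [mem_closure_iff]
  intro O hO h1
  by_contra hne
  apply hL
  refine mem_of_superset (hO.mem_nhds h1) ?_
  intro x hx
  by_contra hx2
  apply hne
  rw [mem_union, not_or] at hx2
  exact ⟨x, hx, hx2.1, hx2.2⟩

theorem esc_seq {G : Type*} [Group G] [TopologicalSpace G] [IsTopologicalGroup G] [T2Space G]
    [FrechetUrysohnSpace G] {V : ℕ → Set G}
    (hn : ∀ n, ((⋃ i ∈ Finset.range n, V i) ∪ {1}) ∉ 𝓝 (1 : G)) :
    ∃ C : Set G, ConvTo id C 1 ∧ ∀ i, (C ∩ V i).Finite := by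
  have hc : ∀ n : ℕ, ∃ c : ℕ → G, (∀ j, c j ∈ (⋃ i ∈ Finset.range (n + 1), V i)ᶜ \ {1}) ∧
      Tendsto c atTop (𝓝 1) := fun n =>
    mem_closure_iff_seq_limit.1 (one_mem (hn (n + 1)))
  choose c hcm hct using hc
  set x : ℕ → G := c 0 with hx
  have hx1 : ∀ n, x n ≠ 1 := fun n h => (hcm 0 n).2 h
  have hxt : Tendsto x atTop (𝓝 1) := hct 0
  have hA : (1 : G) ∈ closure {g : G | ∃ n j, g = x n * c n j ∧ g ≠ 1} := by
    rw [mem_closure_iff]
    intro O hO h1
    have hm : Tendsto (fun p : G × G => p.1 * p.2) (𝓝 ((1 : G), (1 : G))) (𝓝 1) := by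
      have h2 : Continuous fun p : G × G => p.1 * p.2 := continuous_mul
      have h3 := h2.tendsto ((1 : G), (1 : G))
      simpa using h3
    have hOn := hm (hO.mem_nhds h1)
    rw [mem_map, nhds_prod_eq, mem_prod_iff] at hOn
    obtain ⟨U, hU, U', hU', hUU⟩ := hOn
    obtain ⟨n, hnU⟩ := (hxt.eventually hU).exists
    have he1 : ∀ᶠ j in atTop, c n j ∈ U' := (hct n).eventually hU'
    have he2 : ∀ᶠ j in atTop, c n j ≠ (x n)⁻¹ := by
      have h4 : (1 : G) ≠ (x n)⁻¹ := fun h => hx1 n (inv_eq_one.1 h.symm)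
      exact (hct n).eventually_ne h4
    obtain ⟨j, hj1, hj2⟩ := (he1.and he2).exists
    refine ⟨x n * c n j, hUU (mk_mem_prod hnU hj1), n, j, rfl, fun h => hj2 ?_⟩
    exact (inv_eq_of_mul_eq_one_right h).symm
  obtain ⟨s, hsA, hst⟩ := mem_closure_iff_seq_limit.1 hA
  choose n j hs hs1 using hsA
  rcases idx n j with hT | ⟨n0, φ, hφ, hn0, hm⟩
  · have hd1 : Tendsto (fun k => c (n k) (j k)) atTop (𝓝 1) := by
      have h1 : Tendsto (fun k => (x (n k))⁻¹ * s k) atTop (𝓝 ((1 : G)⁻¹ * 1)) :=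
        ((hxt.comp hT).inv).mul hst
      rw [inv_one, one_mul] at h1
      refine h1.congr fun k => ?_
      rw [hs k, inv_mul_cancel_left]
    set d : ℕ → G := fun k => c (n k) (j k) with hd'
    have hdne : ∀ k, d k ≠ 1 := fun k h => (hcm (n k) (j k)).2 h
    have hCinf : (range d).Infinite := by
      intro hf
      have h2 : (1 : G) ∈ range d := hf.isClosed.mem_of_tendsto hd1
        (Eventually.of_forall fun k => mem_range_self k)
      obtain ⟨k, hk⟩ := h2
      exact hdne k hk
    have hconv : ConvTo id (range d) 1 := by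
      refine ⟨hCinf, fun O hO h1 => ?_⟩
      have h2 := hd1.eventually (hO.mem_nhds h1)
      rw [eventually_atTop] at h2
      obtain ⟨K, hK⟩ := h2
      refine ((finite_Iio K).image d).subset ?_
      rintro _ ⟨⟨k, rfl⟩, hk⟩
      refine ⟨k, ?_, rfl⟩
      by_contra hkK
      exact hk (hK k (not_lt.1 hkK))
    refine ⟨range d, hconv, fun i => ?_⟩
    have h2 := hT.eventually_ge_atTop i
    rw [eventually_atTop] at h2
    obtain ⟨K, hK⟩ := h2
    refine ((finite_Iio K).image d).subset ?_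
    rintro _ ⟨⟨k, rfl⟩, hk⟩
    refine ⟨k, ?_, rfl⟩
    by_contra hkK
    have h3 := hK k (not_lt.1 hkK)
    exact (hcm (n k) (j k)).1 (mem_biUnion (Finset.mem_coe.2 (Finset.mem_range.2
      (Nat.lt_succ_of_le h3))) hk)
  · exfalso
    have hsφ : Tendsto (fun i => s (φ i)) atTop (𝓝 1) := hst.comp hφ.tendsto_atTop
    have hsi : ∀ i, s (φ i) = x n0 * c n0 (j (φ i)) := by
      intro i
      rw [hs, hn0]
    rcases hm with ⟨m0, hm0⟩ | hm
    · have h1 : Tendsto (fun i => s (φ i)) atTop (𝓝 (x n0 * c n0 m0)) := by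
        have h2 : (fun i => s (φ i)) = fun _ => x n0 * c n0 m0 := by
          funext i
          rw [hsi, hm0]
        rw [h2]
        exact tendsto_const_nhds
      have h3 := tendsto_nhds_unique h1 hsφ
      apply hs1 (φ 0)
      rw [hsi, hm0, h3]
    · have h1 : Tendsto (fun i => s (φ i)) atTop (𝓝 (x n0 * 1)) := by
        have h2 : (fun i => s (φ i)) = fun i => x n0 * c n0 (j (φ i)) := by
          funext i
          rw [hsi]
        rw [h2]
        exact tendsto_const_nhds.mul ((hct n0).comp hm)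
      rw [mul_one] at h1
      exact hx1 n0 (tendsto_nhds_unique h1 hsφ)

end Pool.Agent.MAK
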