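import Pool.Agent.MAK.Cof
import Pool.Agent.MAK.Core
import Pool.Agent.MAK.EscSeq
import Pool.Agent.MAK.Dic

/-!
# MAK/FrA: the Frechet-Urysohn case: somewhere dense sets `K * K` in every neighbourhood of `1`

Let `K s` be the union of `{1}` and the sets `Q t`, `(Q t)⁻¹`, `t ∈ s`.  Under Martin's axiom, for every open `W ∋ 1` some `K s * K s` with `Q t ⊆ W` for all `t ∈ s` is somewhere dense.
Otherwise all sets `F * (K s * K s)` are nowhere dense; choose `ℵ₁` sequences converging to `1` which are almost disjoint from more and more of these sets (`esc_seq`) and apply `core`.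
-/

set_option autoImplicit false

namespace Pool.Agent.MAK

open Set Topology Filter Cardinal Pointwise
open Pool.Agent.ASG (ConvTo)

/-- the union of `{1}` and the sets `Q t`, `(Q t)⁻¹`, `t ∈ s` -/
def KK {G J : Type} [Group G] (Q : J → ℕ → Set G) (s : Finset (J × ℕ)) : Set G :=
  {x | x = 1 ∨ ∃ t ∈ s, x ∈ Q t.1 t.2 ∨ x⁻¹ ∈ Q t.1 t.2}

section

variable {G J : Type} [Group G] {Q : J → ℕ → Set G}

theorem KK_one (s : Finset (J × ℕ)) : (1 : G) ∈ KK Q s := Or.inl rfl

theorem KK_inv (s : Finset (J × ℕ)) : (KK Q s)⁻¹ = KK Q s := by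
  ext x
  simp only [KK, Set.mem_inv, mem_ofPred_eq, inv_eq_one, inv_inv]
  constructor
  · rintro (h | ⟨t, ht, h⟩)
    · exact Or.inl h
    · exact Or.inr ⟨t, ht, h.symm⟩
  · rintro (h | ⟨t, ht, h⟩)
    · exact Or.inl h
    · exact Or.inr ⟨t, ht, h.symm⟩

theorem KK_empty : KK Q ∅ = {1} := by
  ext x
  simp [KK]

theorem KK_union [DecidableEq (J × ℕ)] (s t : Finset (J × ℕ)) : KK Q (s ∪ t) = KK Q s ∪ KK Q t := by
  ext x
  simp only [KK, mem_union, mem_ofPred_eq, Finset.mem_union]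
  constructor
  · rintro (h | ⟨u, hu | hu, h⟩)
    · exact Or.inl (Or.inl h)
    · exact Or.inl (Or.inr ⟨u, hu, h⟩)
    · exact Or.inr (Or.inr ⟨u, hu, h⟩)
  · rintro ((h | ⟨u, hu, h⟩) | (h | ⟨u, hu, h⟩))
    · exact Or.inl h
    · exact Or.inr ⟨u, Or.inl hu, h⟩
    · exact Or.inl h
    · exact Or.inr ⟨u, Or.inr hu, h⟩

theorem KK_single (j : J) (n : ℕ) : Q j n ⊆ KK Q {(j, n)} := fun _ hx =>
  Or.inr ⟨(j, n), Finset.mem_singleton_self _, Or.inl hx⟩

theorem KK_sub {s : Finset (J × ℕ)} {W : Set G} (h1 : 1 ∈ W) (hi : W⁻¹ = W)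
    (hs : ∀ t ∈ s, Q t.1 t.2 ⊆ W) : KK Q s ⊆ W := by
  rintro x (rfl | ⟨t, ht, h | h⟩)
  · exact h1
  · exact hs t ht h
  · rw [← hi]
    exact hs t ht h

end

theorem nd_union {X : Type*} [TopologicalSpace X] {A B : Set X} (hA : interior (closure A) = ∅)
    (hB : interior (closure B) = ∅) : interior (closure (A ∪ B)) = ∅ := by
  rw [closure_union, interior_union_isClosed_of_interior_empty isClosed_closure hB, hA]

theorem nd_mul {G : Type*} [Group G] [TopologicalSpace G] [IsTopologicalGroup G] {A : Set G}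
    (hA : interior (closure A) = ∅) (F : Finset G) : interior (closure ((F : Set G) * A)) = ∅ := by
  classical
  induction F using Finset.induction_on with
  | empty => simp
  | insert g F _ ih =>
    rw [Finset.coe_insert, Set.insert_eq, Set.union_mul, Set.singleton_mul]
    refine nd_union ?_ ih
    have h1 : (fun x => g * x) '' A = g • A := rfl
    rw [h1, closure_smul, interior_smul, hA, smul_set_empty]

theorem nd_biUnion {X : Type*} [TopologicalSpace X] {V : ℕ → Set X}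
    (hn : ∀ i, interior (closure (V i)) = ∅) (n : ℕ) :
    interior (closure (⋃ i ∈ Finset.range n, V i)) = ∅ := by
  induction n with
  | zero => simp
  | succ n ih =>
    rw [Finset.range_add_one, Finset.set_biUnion_insert]
    exact nd_union (hn n) ih

theorem nd_nhds {X : Type*} [TopologicalSpace X] {A : Set X} (hA : interior (closure A) = ∅) (x : X) :
    A ∉ 𝓝 x := by
  intro h
  have h1 : x ∈ interior (closure A) := interior_mono subset_closure (mem_interior_iff_mem_nhds.2 h)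
  rw [hA] at h1
  exact h1

theorem compact_conv {G : Type} [Group G] [TopologicalSpace G] {S : Set G} (hS : ConvTo id S 1) :
    IsCompact (S ∪ {1}) := by
  rw [isCompact_iff_ultrafilter_le_nhds]
  intro f hf
  by_cases h : (f : Filter G) ≤ 𝓝 1
  · exact ⟨1, Or.inr rfl, h⟩
  · rw [nhds_basis_opens (1 : G) |>.ge_iff] at h
    push Not at h
    obtain ⟨O, ⟨h1, hO⟩, hOf⟩ := h
    have h2 : Oᶜ ∈ f := Ultrafilter.compl_mem_iff_notMem.2 hOf
    have h3 : (S ∪ {1}) ∩ Oᶜ ∈ f := Filter.inter_mem (le_principal_iff.1 hf) h2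
    have h4 : ((S ∪ {1}) ∩ Oᶜ).Finite := by
      refine (hS.2 O hO h1).subset ?_
      rintro x ⟨hx | hx, hxO⟩
      · exact ⟨hx, hxO⟩
      · exfalso
        apply hxO
        rw [show x = 1 from hx]
        exact h1
    obtain ⟨x, hx, hfx⟩ := Ultrafilter.eq_pure_of_finite_mem h4 h3
    refine ⟨x, hx.1, ?_⟩
    rw [hfx]
    exact pure_le_nhds x

theorem convTo_range {G : Type} [Group G] [TopologicalSpace G] [T2Space G] {x : ℕ → G}
    (hx : Tendsto x atTop (𝓝 1)) (h1 : ∀ n, x n ≠ 1) : ConvTo id (range x) 1 := by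
  refine ⟨?_, fun O hO h1O => ?_⟩
  · intro hf
    obtain ⟨k, hk⟩ := hf.isClosed.mem_of_tendsto hx (Eventually.of_forall fun k => mem_range_self k)
    exact h1 k hk
  · obtain ⟨K, hK⟩ := eventually_atTop.1 (hx.eventually (hO.mem_nhds h1O))
    refine ((finite_Iio K).image x).subset ?_
    rintro _ ⟨⟨k, rfl⟩, hk⟩
    refine ⟨k, ?_, rfl⟩
    by_contra hkK
    exact hk (hK k (not_lt.1 hkK))

theorem card_fin {J : Type} (hJ : #J ≤ ℵ₁) : #(Finset (J × ℕ)) ≤ ℵ₁ := by
  have h01 : ℵ₀ ≤ ℵ₁ := (aleph0_lt_aleph_one).le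
  rcases isEmpty_or_nonempty J with h | h
  · exact (mk_le_aleph0 (α := Finset (J × ℕ))).trans h01
  · rw [mk_finset_of_infinite, mk_prod, lift_id, lift_id]
    exact (mul_le_mul' hJ ((mk_le_aleph0 (α := ℕ)).trans h01)).trans (mul_eq_self h01).le

theorem fr_a (hMA : MAOne) {G J : Type} [Group G] [TopologicalSpace G] [IsTopologicalGroup G]
    [T2Space G] [Countable G] [FrechetUrysohnSpace G] {Q : J → ℕ → Set G} (hQ : Loc Q) {W : Set G}
    (hW : IsOpen W) (h1 : 1 ∈ W) :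
    ∃ s : Finset (J × ℕ), (∀ t ∈ s, Q t.1 t.2 ⊆ W) ∧
      (interior (closure (KK Q s * KK Q s))).Nonempty := by
  classical
  by_contra hcon
  push Not at hcon
  have hnd : ∀ s : Finset (J × ℕ), (∀ t ∈ s, Q t.1 t.2 ⊆ W) →
      interior (closure (KK Q s * KK Q s)) = ∅ := hcon
  have hnd1 : interior (closure ({1} : Set G)) = ∅ := by
    have h2 := hnd ∅ (fun t ht => by simp at ht)
    rw [KK_empty] at h2
    simpa using h2
  -- the family
  set 𝒞 : Set (Set G) := {K | ∃ s : Finset (J × ℕ), (∀ t ∈ s, Q t.1 t.2 ⊆ W) ∧ K = KK Q s} with h𝒞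
  have hcard : #𝒞 ≤ ℵ₁ := by
    have h2 : 𝒞 ⊆ range (KK Q) := by
      rintro K ⟨s, -, rfl⟩
      exact ⟨s, rfl⟩
    exact (mk_le_mk_of_subset h2).trans (mk_range_le.trans (card_fin hQ.card))
  have hClo : CloW 𝒞 := by
    refine ⟨⟨∅, fun t ht => by simp at ht, KK_empty.symm⟩, ?_, ?_⟩
    · rintro A ⟨s, hs, rfl⟩ B ⟨t, ht, rfl⟩
      refine ⟨s ∪ t, fun u hu => ?_, (KK_union s t).symm⟩
      rcases Finset.mem_union.1 hu with h3 | h3
      · exact hs u h3
      · exact ht u h3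
    · rintro A ⟨s, hs, rfl⟩
      exact ⟨s, hs, KK_inv s⟩
  obtain ⟨I, inst, hI⟩ := exists_om
  -- an enumeration of the pairs
  have hle : #(𝒞 × Finset G) ≤ #I := by
    have h01 : ℵ₀ ≤ ℵ₁ := (aleph0_lt_aleph_one).le
    have h2 : #(𝒞 × Finset G) ≤ ℵ₁ := by
      rw [mk_prod, lift_id, lift_id]
      exact (mul_le_mul' hcard ((mk_le_aleph0 (α := Finset G)).trans h01)).trans (mul_eq_self h01).le
    refine h2.trans (aleph_one_le_iff.2 ?_)
    rw [← not_le]
    intro h3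
    have h4 : Countable I := Cardinal.mk_le_aleph0_iff.1 h3
    exact hI.unc (to_countable _)
  have hne : Nonempty (𝒞 × Finset G) := ⟨⟨⟨_, hClo.one⟩, ∅⟩⟩
  obtain ⟨ι⟩ := hle
  obtain ⟨e, he⟩ : ∃ e : I → 𝒞 × Finset G, Function.Surjective e :=
    ⟨Function.invFun ι, Function.invFun_surjective ι.injective⟩
  set L : I → Set G := fun a => ((e a).2 : Set G) * ((e a).1 * (e a).1 : Set G) with hL
  have hLnd : ∀ a, interior (closure (L a)) = ∅ := by
    intro a
    obtain ⟨s, hs, hK⟩ := (e a).1.2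
    have h2 := nd_mul (hnd s hs) (e a).2
    rw [← hK] at h2
    exact h2
  have hS : ∀ a : I, ∃ S : Set G, ConvTo id S 1 ∧ ∀ b, b ≤ a → (S ∩ L b).Finite := by
    intro a
    obtain ⟨c, hc⟩ := (hI.init a).exists_eq_range ⟨a, le_rfl⟩
    obtain ⟨S, hS1, hS2⟩ := esc_seq (V := fun n => L (c n)) (fun n =>
      nd_nhds (nd_union (nd_biUnion (fun i => hLnd (c i)) n) hnd1) 1)
    refine ⟨S, hS1, fun b hb => ?_⟩
    have hb2 : b ∈ Iic a := hb
    rw [hc] at hb2
    obtain ⟨n, rfl⟩ := hb2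
    exact hS2 n
  choose S hS1 hS2 using hS
  have hsm : SmallW (fun a => S a ∪ {1}) 𝒞 := by
    intro K hK F
    obtain ⟨b, hb⟩ := he (⟨K, hK⟩, F)
    refine (hI.init b).mono ?_
    intro a ha
    by_contra hab
    have hab' : b ≤ a := (not_le.1 hab).le
    have h2 : S a ∪ {1} ⊆ (F : Set G) * (K * K) := ha
    have h3 : L b = (F : Set G) * (K * K) := by rw [hL]; simp only [hb]
    apply (hS1 a).1
    refine (hS2 a b hab').subset fun x hx => ⟨hx, ?_⟩
    rw [h3]
    exact h2 (Or.inl hx)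
  obtain ⟨A, h1A, hfin, h1c⟩ := core hMA hI hClo hcard hsm fun a => compact_conv (hS1 a)
  obtain ⟨x, hxA, hx⟩ := mem_closure_iff_seq_limit.1 h1c
  obtain ⟨j, hj⟩ := hQ.ctch (range x) (convTo_range hx fun n h2 => h1A (h2 ▸ hxA n))
  obtain ⟨n, hn⟩ := hQ.small j W hW h1
  apply hj n
  refine (hfin (KK Q {(j, n)}) ⟨{(j, n)}, ?_, rfl⟩).subset ?_
  · intro t ht
    rw [Finset.mem_singleton.1 ht]
    exact hn
  · rintro _ ⟨⟨k, rfl⟩, hk⟩
    exact ⟨hxA k, KK_single j n hk⟩

end Pool.Agent.MAK
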