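import Pool.Agent.MAK.Defs

/-!
# MAK/Sig: a set which is almost disjoint from `ℵ₁` sets and meets `ℵ₁` sets

Martin's axiom for the pairs (finite subset of `G`, finite subset of `𝒩`).
-/

set_option autoImplicit false

namespace Pool.Agent.MAK

open Set Cardinal

/-- the conditions -/
structure SC {G : Type} (𝒩 : Set (Set G)) where
  A : Finset G
  s : Finset (Set G)
  hs : (s : Set (Set G)) ⊆ 𝒩

/-- `q` is stronger than `p` -/
structure SC.Le {G : Type} {𝒩 : Set (Set G)} (q p : SC 𝒩) : Prop where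
  A : p.A ⊆ q.A
  s : p.s ⊆ q.s
  new : ∀ x ∈ q.A, x ∉ p.A → ∀ N ∈ p.s, x ∉ N

instance {G : Type} {𝒩 : Set (Set G)} : Preorder (SC 𝒩) where
  le q p := SC.Le q p
  le_refl _ := ⟨subset_rfl, subset_rfl, fun _ h h' => (h' h).elim⟩
  le_trans r q p hrq hqp := by
    refine ⟨hqp.A.trans hrq.A, hqp.s.trans hrq.s, fun x hx hxp N hN => ?_⟩
    by_cases h : x ∈ q.A
    · exact hqp.new x h hxp N hN
    · exact hrq.new x hx h N (hqp.s hN)

private theorem sc_ccc {G : Type} [Countable G] {𝒩 : Set (Set G)} : CCC (SC 𝒩) := by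
  classical
  intro S hS
  have hinj : InjOn (fun p : SC 𝒩 => p.A) S := by
    intro p hp q hq h
    by_contra hne
    apply hS p hp q hq hne
    have h1 : p.A = q.A := h
    refine ⟨⟨p.A, p.s ∪ q.s, ?_⟩, ⟨subset_rfl, Finset.subset_union_left, fun x hx hx' => (hx' hx).elim⟩,
      ⟨?_, Finset.subset_union_right, fun x hx hx' => ?_⟩⟩
    · rw [Finset.coe_union]
      exact union_subset p.hs q.hs
    · rw [h1]
    · exfalso
      apply hx'
      rw [← h1]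
      exact hx
  exact countable_of_injective_of_countable_image hinj (to_countable _)

theorem sig (hMA : MAOne) {G : Type} [Countable G] {𝒩 𝒰 : Set (Set G)} (h𝒩 : #𝒩 ≤ ℵ₁) (h𝒰 : #𝒰 ≤ ℵ₁)
    (h : ∀ U ∈ 𝒰, ∀ s : Finset (Set G), (s : Set (Set G)) ⊆ 𝒩 → ¬ U ⊆ ⋃₀ (s : Set (Set G))) :
    ∃ A : Set G, (∀ N ∈ 𝒩, (A ∩ N).Finite) ∧ ∀ U ∈ 𝒰, (A ∩ U).Nonempty := by
  classical
  have hne : Nonempty (SC 𝒩) := ⟨⟨∅, ∅, by simp⟩⟩
  have h01 : ℵ₀ ≤ ℵ₁ := (aleph0_lt_aleph_one).le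
  obtain ⟨Γ, -, hdir, hmeet⟩ := hMA (SC 𝒩) sc_ccc
    (((fun N => {q : SC 𝒩 | N ∈ q.s}) '' 𝒩) ∪ ((fun U => {q : SC 𝒩 | ∃ x ∈ q.A, x ∈ U}) '' 𝒰))
    (by
      refine (mk_union_le _ _).trans ?_
      refine (add_le_add (mk_image_le.trans h𝒩) (mk_image_le.trans h𝒰)).trans ?_
      rw [add_eq_self h01])
    (by
      rintro D (⟨N, hN, rfl⟩ | ⟨U, hU, rfl⟩) p
      · refine ⟨⟨p.A, insert N p.s, ?_⟩, Finset.mem_insert_self _ _,
          ⟨subset_rfl, Finset.subset_insert _ _, fun x hx hx' => (hx' hx).elim⟩⟩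
        rw [Finset.coe_insert]
        exact insert_subset hN p.hs
      · obtain ⟨x, hxU, hx⟩ := not_subset.1 (h U hU p.s p.hs)
        refine ⟨⟨insert x p.A, p.s, p.hs⟩, ⟨x, Finset.mem_insert_self _ _, hxU⟩,
          ⟨Finset.subset_insert _ _, subset_rfl, fun y hy hy' N hN hyN => ?_⟩⟩
        rcases Finset.mem_insert.1 hy with rfl | h3
        · exact hx ⟨N, hN, hyN⟩
        · exact hy' h3)
  refine ⟨{x | ∃ p ∈ Γ, x ∈ p.A}, ?_, ?_⟩
  · intro N hN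
    obtain ⟨p, hp1, hp⟩ := hmeet _ (Or.inl ⟨N, hN, rfl⟩)
    have hp1' : N ∈ p.s := hp1
    refine p.A.finite_toSet.subset ?_
    rintro x ⟨⟨q, hq, hxq⟩, hxN⟩
    obtain ⟨r, -, hrp, hrq⟩ := hdir p hp q hq
    by_contra hxp
    exact hrp.new x (hrq.A hxq) hxp N hp1' hxN
  · intro U hU
    obtain ⟨p, hp1, hp⟩ := hmeet _ (Or.inr ⟨U, hU, rfl⟩)
    obtain ⟨x, hx, hxU⟩ := hp1
    exact ⟨x, ⟨p, hp, hx⟩, hxU⟩

end Pool.Agent.MAK
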