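import Pool.Agent.MAK.FrA
import Pool.Agent.MAK.Sig
import Pool.Agent.ASG.FOne

/-!
# MAK/FrMain: under Martin's axiom, Frechet-Urysohn groups with the property `Loc` are metrizable

If all sets `Q j n`, `n ∈ ℕ`, of one sequence `Q j` are somewhere dense, use `f_one`.  Otherwise choose nowhere dense sets `Q j (n j)`.  By `fr_a` at most `ℵ₁` somewhere dense sets `K s * K s` form a
network at `1`.  `sig` gives a set `A` which meets all of these sets outside `1`, while all sets `A ∩ Q j (n j)` are finite: but `1` is a limit of a sequence in `A \ {1}`, contradiction.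
-/

set_option autoImplicit false

namespace Pool.Agent.MAK

open Set Topology Filter Cardinal Pointwise
open Pool.Agent.ASG (ConvTo f_one)

theorem fr (hMA : MAOne) {G J : Type} [Group G] [TopologicalSpace G] [IsTopologicalGroup G]
    [T2Space G] [Countable G] [FrechetUrysohnSpace G] {Q : J → ℕ → Set G} (hQ : Loc Q) :
    TopologicalSpace.MetrizableSpace G := by
  classical
  by_cases hd : IsOpen ({1} : Set G)
  · have : DiscreteTopology G := discreteTopology_of_isOpen_singleton_one hd
    infer_instance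
  by_cases hA : ∃ j, ∀ n, (interior (closure (Q j n))).Nonempty
  · obtain ⟨j, hj⟩ := hA
    exact f_one hj (hQ.small j)
  exfalso
  have hnd1 : interior (closure ({1} : Set G)) = ∅ := by
    rw [isClosed_singleton.closure_eq]
    rcases (subset_singleton_iff_eq.1 (interior_subset (s := ({1} : Set G)))) with h | h
    · exact h
    · exfalso
      apply hd
      rw [← h]
      exact isOpen_interior
  have h01 : ℵ₀ ≤ ℵ₁ := (aleph0_lt_aleph_one).le
  push Not at hA
  choose n hn using hA
  have hfinU : ∀ s : Finset (Set G), (s : Set (Set G)) ⊆ range (fun j => Q j (n j)) ∪ {{1}} →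
      interior (closure (⋃₀ (s : Set (Set G)))) = ∅ := by
    intro s
    induction s using Finset.induction_on with
    | empty => intro _; simp
    | insert N s _ ih =>
      intro h
      rw [Finset.coe_insert, sUnion_insert]
      rw [Finset.coe_insert] at h
      refine nd_union ?_ (ih ((subset_insert _ _).trans h))
      rcases h (mem_insert _ _) with ⟨j, rfl⟩ | h3
      · exact hn j
      · rw [show N = {1} from h3]
        exact hnd1
  obtain ⟨A, hA1, hA2⟩ := sig hMA (G := G) (𝒩 := range (fun j => Q j (n j)) ∪ {{1}})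
    (𝒰 := {U | ∃ s : Finset (J × ℕ), (interior (closure (KK Q s * KK Q s))).Nonempty ∧
      U = (KK Q s * KK Q s) \ {1}})
    (by
      refine (mk_union_le _ _).trans ?_
      refine (add_le_add (mk_range_le.trans hQ.card) ?_).trans (add_eq_self h01).le
      rw [mk_singleton]
      exact one_le_aleph0.trans h01)
    (by
      have h2 : {U | ∃ s : Finset (J × ℕ), (interior (closure (KK Q s * KK Q s))).Nonempty ∧
          U = (KK Q s * KK Q s) \ {1}} ⊆ range fun s => (KK Q s * KK Q s) \ {1} := by
        rintro U ⟨s, -, rfl⟩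
        exact ⟨s, rfl⟩
      exact (mk_le_mk_of_subset h2).trans (mk_range_le.trans (card_fin hQ.card)))
    (by
      rintro U ⟨s, hs, rfl⟩ N hN hsub
      obtain ⟨z, hz⟩ := hs
      have h3 : KK Q s * KK Q s ⊆ ⋃₀ (N : Set (Set G)) ∪ {1} := by
        intro x hx
        by_cases hx1 : x = 1
        · exact Or.inr hx1
        · exact Or.inl (hsub ⟨hx, hx1⟩)
      have h4 := interior_mono (closure_mono h3) hz
      rw [nd_union (hfinU N hN) hnd1] at h4
      exact h4)
  have h1c : (1 : G) ∈ closure (A \ {1}) := by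
    rw [mem_closure_iff]
    intro O hO h1O
    obtain ⟨V, hVo, hV1, hVV⟩ := exists_open_nhds_one_mul_subset (hO.mem_nhds h1O)
    have hVi : IsOpen (V ∩ V⁻¹) := hVo.inter hVo.inv
    have hVi1 : (1 : G) ∈ V ∩ V⁻¹ := ⟨hV1, by rw [Set.mem_inv, inv_one]; exact hV1⟩
    obtain ⟨s, hs1, hs2⟩ := fr_a hMA hQ hVi hVi1
    have hsub : KK Q s ⊆ V := by
      refine (KK_sub hVi1 ?_ hs1).trans inter_subset_left
      rw [Set.inter_inv, inv_inv, inter_comm]
    obtain ⟨x, hxA, hx⟩ := hA2 _ ⟨s, hs2, rfl⟩
    exact ⟨x, hVV (mul_subset_mul hsub hsub hx.1), hxA, hx.2⟩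
  obtain ⟨x, hxA, hx⟩ := mem_closure_iff_seq_limit.1 h1c
  obtain ⟨j, hj⟩ := hQ.ctch (range x) (convTo_range hx fun k h2 => (hxA k).2 h2)
  apply hj (n j)
  refine (hA1 (Q j (n j)) (Or.inl ⟨j, rfl⟩)).subset ?_
  rintro _ ⟨⟨k, rfl⟩, hk⟩
  exact ⟨(hxA k).1, hk⟩

end Pool.Agent.MAK
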