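import Pool.Agent.MAK.Cof
import Pool.Agent.MAK.Core
import Pool.Agent.MAK.EscSeq

/-!
# MAK/FrN: in nondiscrete countable Frechet-Urysohn groups `ℵ₁` nowhere dense sets do not catch all sequences converging to `1`

Under Martin's axiom.  Suppose they do.  Let `𝒞` be the family of the finite unions `K` of these sets, their inverses and `{1}`.  Choose sets `S a` converging to `1`, almost disjoint from more and more of
the nowhere dense sets `F * closure K * F` (`esc_seq`), and use the partial order of MAK/Defs for `C a = S a ∪ {1}`.  It has only countable antichains: if `C a ∪ C b ⊆ F * W`, `1 ∈ W`,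
`W * W ⊆ K ∪ K'` and `S b` is almost disjoint from all translates of `K`, then `C a ⊆ F * closure K' * F` (`key`).  The set `A` given by `core_of_ccc` has a sequence converging to `1`: contradiction.
-/

set_option autoImplicit false

namespace Pool.Agent.MAK

open Set Topology Filter Cardinal Pointwise
open Pool.Agent.ASG (ConvTo)

theorem nd_union {X : Type*} [TopologicalSpace X] {A B : Set X} (hA : interior (closure A) = ∅)
    (hB : interior (closure B) = ∅) : interior (closure (A ∪ B)) = ∅ := by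
  rw [closure_union, interior_union_isClosed_of_interior_empty isClosed_closure hB, hA]

theorem nd_mul {G : Type*} [Group G] [TopologicalSpace G] [IsTopologicalGroup G] {A : Set G}
    (hA : interior (closure A) = ∅) (F : Finset G) : interior (closure ((F : Set G) * A)) = ∅ := by
  classical
  induction F using Finset.induction_on with
  | empty => simp
  | insert g F _ ih =>
    rw [Finset.coe_insert, Set.insert_eq, Set.union_mul, Set.singleton_mul]
    refine nd_union ?_ ih
    have h1 : (fun x => g * x) '' A = g • A := rfl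
    rw [h1, closure_smul, interior_smul, hA, smul_set_empty]

theorem nd_inv {G : Type*} [Group G] [TopologicalSpace G] [IsTopologicalGroup G] {A : Set G}
    (hA : interior (closure A) = ∅) : interior (closure A⁻¹) = ∅ := by
  have h1 : A⁻¹ = (Homeomorph.inv G) ⁻¹' A := rfl
  rw [h1, ← Homeomorph.preimage_closure, ← Homeomorph.preimage_interior, hA, preimage_empty]

theorem nd_mul_right {G : Type*} [Group G] [TopologicalSpace G] [IsTopologicalGroup G] {A : Set G}
    (hA : interior (closure A) = ∅) (F : Finset G) : interior (closure (A * (F : Set G))) = ∅ := by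
  classical
  have h1 : A * (F : Set G) = (((F⁻¹ : Finset G) : Set G) * A⁻¹)⁻¹ := by
    rw [mul_inv_rev, inv_inv, Finset.coe_inv, inv_inv]
  rw [h1]
  exact nd_inv (nd_mul (nd_inv hA) _)

theorem nd_biUnion {X : Type*} [TopologicalSpace X] {V : ℕ → Set X}
    (hn : ∀ i, interior (closure (V i)) = ∅) (n : ℕ) :
    interior (closure (⋃ i ∈ Finset.range n, V i)) = ∅ := by
  induction n with
  | zero => simp
  | succ n ih =>
    rw [Finset.range_add_one, Finset.set_biUnion_insert]
    exact nd_union (hn n) ih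

theorem nd_nhds {X : Type*} [TopologicalSpace X] {A : Set X} (hA : interior (closure A) = ∅) (x : X) :
    A ∉ 𝓝 x := by
  intro h
  have h1 : x ∈ interior (closure A) := interior_mono subset_closure (mem_interior_iff_mem_nhds.2 h)
  rw [hA] at h1
  exact h1

theorem compact_conv {G : Type} [Group G] [TopologicalSpace G] {S : Set G} (hS : ConvTo id S 1) :
    IsCompact (S ∪ {1}) := by
  rw [isCompact_iff_ultrafilter_le_nhds]
  intro f hf
  by_cases h : (f : Filter G) ≤ 𝓝 1
  · exact ⟨1, Or.inr rfl, h⟩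
  · rw [nhds_basis_opens (1 : G) |>.ge_iff] at h
    push Not at h
    obtain ⟨O, ⟨h1, hO⟩, hOf⟩ := h
    have h2 : Oᶜ ∈ f := Ultrafilter.compl_mem_iff_notMem.2 hOf
    have h3 : (S ∪ {1}) ∩ Oᶜ ∈ f := Filter.inter_mem (le_principal_iff.1 hf) h2
    have h4 : ((S ∪ {1}) ∩ Oᶜ).Finite := by
      refine (hS.2 O hO h1).subset ?_
      rintro x ⟨hx | hx, hxO⟩
      · exact ⟨hx, hxO⟩
      · exfalso
        apply hxO
        rw [show x = 1 from hx]
        exact h1
    obtain ⟨x, hx, hfx⟩ := Ultrafilter.eq_pure_of_finite_mem h4 h3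
    refine ⟨x, hx.1, ?_⟩
    rw [hfx]
    exact pure_le_nhds x

theorem convTo_range {G : Type} [Group G] [TopologicalSpace G] [T2Space G] {x : ℕ → G}
    (hx : Tendsto x atTop (𝓝 1)) (h1 : ∀ n, x n ≠ 1) : ConvTo id (range x) 1 := by
  refine ⟨?_, fun O hO h1O => ?_⟩
  · intro hf
    obtain ⟨k, hk⟩ := hf.isClosed.mem_of_tendsto hx (Eventually.of_forall fun k => mem_range_self k)
    exact h1 k hk
  · obtain ⟨K, hK⟩ := eventually_atTop.1 (hx.eventually (hO.mem_nhds h1O))
    refine ((finite_Iio K).image x).subset ?_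
    rintro _ ⟨⟨k, rfl⟩, hk⟩
    refine ⟨k, ?_, rfl⟩
    by_contra hkK
    exact hk (hK k (not_lt.1 hkK))

/-- the dichotomy for products of sequences which converge to `1` -/
theorem key {G : Type} [Group G] [TopologicalSpace G] [IsTopologicalGroup G] {F : Finset G}
    {K K' W : Set G} {A S : Set G} (hS : ConvTo id S 1) (hb : ∀ g : G, (S ∩ g • K).Finite)
    (hAW : A ⊆ (F : Set G) * W) (hSW : S ⊆ (F : Set G) * W)
    (h : ∀ x ∈ W, ∀ y ∈ W, x * y ∈ K ∪ K') : A ⊆ (F : Set G) * closure K' * (F : Set G) := by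
  intro c hc
  obtain ⟨f', hf', v, hv, rfl⟩ := mem_mul.1 (hAW hc)
  -- infinitely many elements of `S` are in one translate `f • W`
  obtain ⟨f, hf, hX⟩ : ∃ f ∈ F, {x | x ∈ S ∧ f⁻¹ * x ∈ W}.Infinite := by
    by_contra hcon
    push Not at hcon
    apply hS.1
    refine (F.finite_toSet.biUnion (t := fun f => {x | x ∈ S ∧ f⁻¹ * x ∈ W}) fun f hf =>
      (hcon f hf)).subset ?_
    intro x hx
    obtain ⟨f, hf, w, hw, rfl⟩ := mem_mul.1 (hSW hx)
    refine mem_biUnion (x := f) hf ⟨hx, ?_⟩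
    rw [inv_mul_cancel_left]
    exact hw
  have hfin : {x | x ∈ S ∧ v * (f⁻¹ * x) ∈ K}.Finite := by
    refine (hb (f * v⁻¹)).subset ?_
    rintro x ⟨hx, hxK⟩
    refine ⟨hx, ?_⟩
    rw [mem_smul_set_iff_inv_smul_mem, smul_eq_mul, mul_inv_rev, inv_inv, mul_assoc]
    exact hxK
  have hcl : v * f⁻¹ ∈ closure K' := by
    rw [mem_closure_iff]
    intro O hO hvO
    have h1 : IsOpen {x : G | v * f⁻¹ * x ∈ O} := hO.preimage (continuous_const_mul _)
    have h2 := hS.2 _ h1 (by simpa using hvO)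
    obtain ⟨x, ⟨hxS, hxW⟩, hxn⟩ := (hX.sdiff (h2.union hfin)).nonempty
    rw [mem_union, not_or] at hxn
    have h3 : v * f⁻¹ * x ∈ O := by
      by_contra h4
      exact hxn.1 ⟨hxS, h4⟩
    refine ⟨v * f⁻¹ * x, h3, ?_⟩
    rcases h v hv _ hxW with h4 | h4
    · exact (hxn.2 ⟨hxS, h4⟩).elim
    · rw [mul_assoc]
      exact h4
  refine mem_mul.2 ⟨f' * (v * f⁻¹), mem_mul.2 ⟨f', hf', _, hcl, rfl⟩, f, hf, ?_⟩
  group

/-- the union of `{1}` and the sets `N j`, `(N j)⁻¹`, `j ∈ s` -/
def KN {G J : Type} [Group G] (N : J → Set G) (s : Finset J) : Set G :=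
  {x | x = 1 ∨ ∃ j ∈ s, x ∈ N j ∨ x⁻¹ ∈ N j}

section

variable {G J : Type} [Group G] {N : J → Set G}

theorem KN_inv (s : Finset J) : (KN N s)⁻¹ = KN N s := by
  ext x
  simp only [KN, Set.mem_inv, mem_ofPred_eq, inv_eq_one, inv_inv]
  constructor
  · rintro (h | ⟨t, ht, h⟩)
    · exact Or.inl h
    · exact Or.inr ⟨t, ht, h.symm⟩
  · rintro (h | ⟨t, ht, h⟩)
    · exact Or.inl h
    · exact Or.inr ⟨t, ht, h.symm⟩

theorem KN_empty : KN N ∅ = {1} := by
  ext x
  simp [KN]

theorem KN_union [DecidableEq J] (s t : Finset J) : KN N (s ∪ t) = KN N s ∪ KN N t := by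
  ext x
  simp only [KN, mem_union, mem_ofPred_eq, Finset.mem_union]
  constructor
  · rintro (h | ⟨u, hu | hu, h⟩)
    · exact Or.inl (Or.inl h)
    · exact Or.inl (Or.inr ⟨u, hu, h⟩)
    · exact Or.inr (Or.inr ⟨u, hu, h⟩)
  · rintro ((h | ⟨u, hu, h⟩) | (h | ⟨u, hu, h⟩))
    · exact Or.inl h
    · exact Or.inr ⟨u, Or.inl hu, h⟩
    · exact Or.inl h
    · exact Or.inr ⟨u, Or.inr hu, h⟩

theorem KN_insert [DecidableEq J] (j : J) (s : Finset J) :
    KN N (insert j s) ⊆ (N j ∪ (N j)⁻¹) ∪ KN N s := by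
  rintro x (rfl | ⟨t, ht, h⟩)
  · exact Or.inr (Or.inl rfl)
  · rcases Finset.mem_insert.1 ht with rfl | h2
    · exact Or.inl h
    · exact Or.inr (Or.inr ⟨t, h2, h⟩)

theorem KN_nd [TopologicalSpace G] [IsTopologicalGroup G]
    (h1 : interior (closure ({1} : Set G)) = ∅) (hN : ∀ j, interior (closure (N j)) = ∅)
    (s : Finset J) : interior (closure (KN N s)) = ∅ := by
  classical
  induction s using Finset.induction_on with
  | empty => rw [KN_empty]; exact h1
  | insert j s _ ih =>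
    have h2 := nd_union (nd_union (hN j) (nd_inv (hN j))) ih
    rw [← subset_empty_iff, ← h2]
    exact interior_mono (closure_mono (KN_insert j s))

end

theorem fr_nd (hMA : MAOne) {G J : Type} [Group G] [TopologicalSpace G] [IsTopologicalGroup G]
    [T2Space G] [Countable G] [FrechetUrysohnSpace G] (hd : ¬ IsOpen ({1} : Set G)) (hJ : #J ≤ ℵ₁)
    {N : J → Set G} (hN : ∀ j, interior (closure (N j)) = ∅)
    (hcatch : ∀ C : Set G, ConvTo id C 1 → ∃ j, (C ∩ N j).Infinite) : False := by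
  classical
  have h01 : ℵ₀ ≤ ℵ₁ := (aleph0_lt_aleph_one).le
  have hnd1 : interior (closure ({1} : Set G)) = ∅ := by
    rw [isClosed_singleton.closure_eq]
    rcases (subset_singleton_iff_eq.1 (interior_subset (s := ({1} : Set G)))) with h | h
    · exact h
    · exfalso
      apply hd
      rw [← h]
      exact isOpen_interior
  have hcardF : #(Finset J) ≤ ℵ₁ := by
    rcases finite_or_infinite J with h | h
    · exact (mk_le_aleph0 (α := Finset J)).trans h01
    · rw [mk_finset_of_infinite]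
      exact hJ
  -- the family
  set 𝒞 : Set (Set G) := range (KN N) with h𝒞
  have hcard : #𝒞 ≤ ℵ₁ := mk_range_le.trans hcardF
  have hClo : CloW 𝒞 := by
    refine ⟨⟨∅, KN_empty⟩, ?_, ?_⟩
    · rintro A ⟨s, rfl⟩ B ⟨t, rfl⟩
      exact ⟨s ∪ t, KN_union s t⟩
    · rintro A ⟨s, rfl⟩
      exact ⟨s, (KN_inv s).symm⟩
  obtain ⟨I, inst, hI⟩ := exists_om
  -- an enumeration of the pairs
  have hle : #(𝒞 × Finset G) ≤ #I := by
    have h2 : #(𝒞 × Finset G) ≤ ℵ₁ := by
      rw [mk_prod, lift_id, lift_id]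
      exact (mul_le_mul' hcard ((mk_le_aleph0 (α := Finset G)).trans h01)).trans (mul_eq_self h01).le
    refine h2.trans (aleph_one_le_iff.2 ?_)
    rw [← not_le]
    intro h3
    have h4 : Countable I := Cardinal.mk_le_aleph0_iff.1 h3
    exact hI.unc (to_countable _)
  have hne : Nonempty (𝒞 × Finset G) := ⟨⟨⟨_, hClo.one⟩, ∅⟩⟩
  obtain ⟨ι⟩ := hle
  obtain ⟨e, he⟩ : ∃ e : I → 𝒞 × Finset G, Function.Surjective e :=
    ⟨Function.invFun ι, Function.invFun_surjective ι.injective⟩
  set L : I → Set G := fun a =>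
    ((e a).2 : Set G) * closure ((e a).1 : Set G) * ((e a).2 : Set G) with hL
  have hLnd : ∀ a, interior (closure (L a)) = ∅ := by
    intro a
    obtain ⟨s, hs⟩ := (e a).1.2
    have h2 : interior (closure (closure ((e a).1 : Set G))) = ∅ := by
      rw [closure_closure, ← hs]
      exact KN_nd hnd1 hN s
    exact nd_mul_right (nd_mul h2 _) _
  have hS : ∀ a : I, ∃ S : Set G, ConvTo id S 1 ∧ ∀ b, b ≤ a → (S ∩ L b).Finite := by
    intro a
    obtain ⟨c, hc⟩ := (hI.init a).exists_eq_range ⟨a, le_rfl⟩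
    obtain ⟨S, hS1, hS2⟩ := esc_seq (V := fun n => L (c n)) (fun n =>
      nd_nhds (nd_union (nd_biUnion (fun i => hLnd (c i)) n) hnd1) 1)
    refine ⟨S, hS1, fun b hb => ?_⟩
    have hb2 : b ∈ Iic a := hb
    rw [hc] at hb2
    obtain ⟨n, rfl⟩ := hb2
    exact hS2 n
  choose S hS1 hS2 using hS
  have hE : ∀ F : Finset G, ∀ K ∈ 𝒞, {b | ∃ g : G, ¬ (S b ∩ g • K).Finite}.Countable := by
    intro _ K hK
    have h2 : ∀ g : G, {b | ¬ (S b ∩ g • K).Finite}.Countable := by
      intro g
      obtain ⟨b, hb⟩ := he (⟨K, hK⟩, {g, 1})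
      refine (hI.init b).mono ?_
      intro a ha
      by_contra hab
      apply ha
      refine (hS2 a b (not_le.1 hab).le).subset ?_
      rintro x ⟨hx, k, hk, rfl⟩
      refine ⟨hx, ?_⟩
      rw [hL]
      simp only [hb]
      refine mem_mul.2 ⟨g * k, mem_mul.2 ⟨g, by simp, k, subset_closure hk, rfl⟩, 1, by simp, ?_⟩
      rw [mul_one]
      rfl
    refine (Set.countable_iUnion h2).mono ?_
    rintro b ⟨g, hg⟩
    exact mem_iUnion.2 ⟨g, hg⟩
  have hL2 : ∀ F : Finset G, ∀ K ∈ 𝒞,
      {a | S a ∪ {1} ⊆ (F : Set G) * closure K * (F : Set G)}.Countable := by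
    intro F K hK
    obtain ⟨b, hb⟩ := he (⟨K, hK⟩, F)
    refine (hI.init b).mono ?_
    intro a ha
    by_contra hab
    apply (hS1 a).1
    refine (hS2 a b (not_le.1 hab).le).subset fun x hx => ⟨hx, ?_⟩
    rw [hL]
    simp only [hb]
    exact ha (Or.inl hx)
  have hccc : CCC (Cond (fun a => S a ∪ {1}) 𝒞) := by
    refine ccc_gen hI.init hClo (E := fun _ K => {b | ∃ g : G, ¬ (S b ∩ g • K).Finite})
      (L := fun F K => (F : Set G) * closure K * (F : Set G)) hE hL2 ?_
    intro F K K' W a b _ _ _ _ _ _ hb _ hW2 hW3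
    refine key (hS1 b) (fun g => ?_) (subset_union_left.trans hW2)
      ((subset_union_left.trans subset_union_right).trans hW2) hW3
    by_contra hg
    exact hb ⟨g, hg⟩
  obtain ⟨A, h1A, hfin, h1c⟩ := core_of_ccc hMA hI hClo hcard hccc fun a => compact_conv (hS1 a)
  obtain ⟨x, hxA, hx⟩ := mem_closure_iff_seq_limit.1 h1c
  obtain ⟨j, hj⟩ := hcatch (range x) (convTo_range hx fun n h2 => h1A (h2 ▸ hxA n))
  apply hj
  refine (hfin (KN N {j}) ⟨{j}, rfl⟩).subset ?_
  rintro _ ⟨⟨k, rfl⟩, hk⟩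
  exact ⟨hxA k, Or.inr ⟨j, Finset.mem_singleton_self _, Or.inl hk⟩⟩

end Pool.Agent.MAK
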