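import Pool.Agent.MAK.Cof
import Pool.Agent.MAK.Core

/-!
# MAK/Main: under Martin's axiom for `ℵ₁` dense sets, countable groups determined by `ℵ₁` compact sets are `k_ω`

Suppose not.  `exists_clo`, `exists_om`, `exists_small` and `core` give a set `A` with `1 ∈ closure A`, `1 ∉ A`, `A ∩ K` finite for all `K ∈ 𝒦`, which is closed: contradiction.
-/

set_option autoImplicit false

namespace Pool.Agent.MAK

open Set Topology Cardinal Pointwise
open Pool.Agent.ASG (IsKOmega)

theorem main (hMA : MAOne) (G : Type) [Group G] [TopologicalSpace G] [IsTopologicalGroup G] [T2Space G]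
    [Countable G] (𝒦 : Set (Set G)) (hc : #𝒦 ≤ ℵ₁) (h : Det 𝒦) : IsKOmega G := by
  by_contra hn
  obtain ⟨𝒞, hcard, hsub, hClo, hcomp⟩ := exists_clo h.1 hc
  obtain ⟨I, inst, hI⟩ := exists_om
  obtain ⟨C, hCC, hs⟩ := exists_small h hn hsub hClo hcomp hcard hI
  obtain ⟨A, h1A, hfin, h1c⟩ := core hMA hI hClo.toW hcard (smallW hClo hs) fun a => hcomp _ (hCC a)
  have hAc : IsClosed A := h.2 A fun K hK => (hfin K (hsub hK)).isClosed
  rw [hAc.closure_eq] at h1c
  exact h1A h1c

end Pool.Agent.MAK
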