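import Pool.Agent.MAK.NF
import Pool.Agent.MAK.FrN
import Pool.Agent.ASG.FOne

/-!
# MAK/MainD: under Martin's axiom, sequential groups with the dichotomy are `k_ω` or metrizable
-/

set_option autoImplicit false

namespace Pool.Agent.MAK

open Set Topology Filter Cardinal
open Pool.Agent.ASG (IsKOmega f_one)

theorem main_dic (hMA : MAOne) {G : Type} [Group G] [TopologicalSpace G] [IsTopologicalGroup G]
    [T2Space G] [Countable G] [SequentialSpace G] (hD : Dic G) :
    IsKOmega G ∨ TopologicalSpace.MetrizableSpace G := by
  by_cases hF : FrechetUrysohnSpace G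
  · right
    by_cases hd : IsOpen ({1} : Set G)
    · have : DiscreteTopology G := discreteTopology_of_isOpen_singleton_one hd
      infer_instance
    rcases hD G id 1 (fun V => (interior (closure V)).Nonempty) with ⟨V, hV, hO⟩ | ⟨J, V, hJ, hV, hC⟩
    · exact f_one hV hO
    · exact (fr_nd hMA hd hJ (fun j => not_nonempty_iff_eq_empty.1 (hV j)) hC).elim
  · exact Or.inl (nf hMA hD hF)

end Pool.Agent.MAK
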