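import Pool.Agent.MAK.MainD
import Pool.Agent.CSD.Seq

/-!
# MAK/MainF: countable groups determined by `ℵ₁` first countable subspaces

Under Martin's axiom for `ℵ₁` dense sets, a countable Hausdorff group is `k_ω` or metrizable if its topology is determined by at most `ℵ₁` first countable subspaces, or if it is sequential and at most
`ℵ₁` subsets, first countable at `1`, catch infinitely many terms of every sequence which converges to `1`.
-/

set_option autoImplicit false

namespace Pool.Agent.MAK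

open Set Topology Filter Cardinal
open Pool.Agent.ASG (IsKOmega ConvTo k_seq cp_ct)

/-- at most `ℵ₁` first countable subspaces determine the topology -/
def DetFC (G : Type) [TopologicalSpace G] : Prop :=
  ∃ ℳ : Set (Set G), #ℳ ≤ ℵ₁ ∧ (∀ M ∈ ℳ, FirstCountableTopology M) ∧
    ∀ A : Set G, (∀ M ∈ ℳ, IsClosed (Subtype.val ⁻¹' A : Set M)) → IsClosed A

/-- at most `ℵ₁` sets, first countable at `1`, catch the sequences converging to `1` -/
def CatchFC (G : Type) [Group G] [TopologicalSpace G] : Prop :=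
  ∃ ℳ : Set (Set G), #ℳ ≤ ℵ₁ ∧ (∀ M ∈ ℳ, (𝓝[M] (1 : G)).IsCountablyGenerated) ∧
    ∀ x : ℕ → G, Tendsto x atTop (𝓝 1) → ∃ M ∈ ℳ, ∃ᶠ n in atTop, x n ∈ M

theorem seq_of_detFC {G : Type} [TopologicalSpace G] (h : DetFC G) : SequentialSpace G := by
  obtain ⟨ℳ, -, hfc, hdet⟩ := h
  refine ⟨fun A hA => hdet A fun M hM => ?_⟩
  have := hfc M hM
  apply IsSeqClosed.isClosed
  intro x a hx hxa
  exact hA (fun i => hx i) ((continuous_subtype_val.tendsto a).comp hxa)

theorem catch_of_detFC {G : Type} [Group G] [TopologicalSpace G] [T2Space G] (h : DetFC G) :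
    CatchFC G := by
  obtain ⟨ℳ, hc, hfc, hdet⟩ := h
  have h01 : ℵ₀ ≤ ℵ₁ := (aleph0_lt_aleph_one).le
  refine ⟨{M | M ∈ ℳ ∧ (1 : G) ∈ M} ∪ {{1}}, ?_, ?_, ?_⟩
  · refine (mk_union_le _ _).trans ((add_le_add ?_ ?_).trans (add_eq_self h01).le)
    · exact (mk_le_mk_of_subset fun M hM => hM.1).trans hc
    · rw [mk_singleton]
      exact one_le_aleph0.trans h01
  · rintro M (⟨hM, h1⟩ | hM)
    · have := hfc M hM
      rw [nhdsWithin_eq_map_subtype_coe h1]
      infer_instance
    · rw [show M = {1} from hM, nhdsWithin_singleton]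
      infer_instance
  · intro x hx
    by_cases h1 : ∃ᶠ n in atTop, x n = 1
    · exact ⟨{1}, Or.inr rfl, h1⟩
    rw [not_frequently] at h1
    obtain ⟨N, hN⟩ := eventually_atTop.1 h1
    by_contra hcon
    push Not at hcon
    set y : ℕ → G := fun n => x (n + N) with hy
    have hyt : Tendsto y atTop (𝓝 1) := (tendsto_add_atTop_iff_nat N).2 hx
    have hcpt : IsCompact (insert 1 (range y)) := hyt.isCompact_insert_range
    have h1S : (1 : G) ∉ range y := by
      rintro ⟨n, hn⟩
      exact hN (n + N) (Nat.le_add_left _ _) hn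
    have hcl : IsClosed (range y) := by
      apply hdet
      intro M hM
      by_cases h1M : (1 : G) ∈ M
      · have h2 := hcon M (Or.inl ⟨hM, h1M⟩)
        obtain ⟨K, hK⟩ := eventually_atTop.1 h2
        have h3 : (range y ∩ M).Finite := by
          refine ((finite_Iio K).image y).subset ?_
          rintro _ ⟨⟨n, rfl⟩, hn⟩
          refine ⟨n, ?_, rfl⟩
          by_contra hnK
          exact hK (n + N) ((not_lt.1 hnK).trans (Nat.le_add_right _ _)) hn
        have h4 : (Subtype.val ⁻¹' (range y) : Set M) = Subtype.val ⁻¹' (range y ∩ M) := by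
          ext z
          simp
        rw [h4]
        exact h3.isClosed.preimage continuous_subtype_val
      · have h4 : (Subtype.val ⁻¹' (range y) : Set M) = Subtype.val ⁻¹' (insert 1 (range y)) := by
          ext z
          simp only [mem_preimage, mem_insert_iff]
          constructor
          · exact fun h5 => Or.inr h5
          · rintro (h5 | h5)
            · exact (h1M (h5 ▸ z.2)).elim
            · exact h5
        rw [h4]
        exact hcpt.isClosed.preimage continuous_subtype_val
    exact h1S (hcl.mem_of_tendsto hyt (Eventually.of_forall fun n => mem_range_self n))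

theorem loc_of_catch {G : Type} [Group G] [TopologicalSpace G] (h : CatchFC G) :
    ∃ (J : Type) (_ : Nonempty J) (Q : J → ℕ → Set G), Loc Q := by
  obtain ⟨ℳ, hc, hcg, hcatch⟩ := h
  have hne : Nonempty ℳ := by
    obtain ⟨M, hM, -⟩ := hcatch (fun _ => 1) tendsto_const_nhds
    exact ⟨⟨M, hM⟩⟩
  have hB : ∀ M : ℳ, ∃ B : ℕ → Set G, (𝓝[(M : Set G)] (1 : G)).HasAntitoneBasis B := by
    intro M
    have := hcg M M.2
    exact (𝓝[(M : Set G)] (1 : G)).exists_antitone_basis
  choose B hB using hB
  refine ⟨ℳ, hne, fun M n => B M n ∪ {1}, hc, ?_, ?_, ?_, ?_⟩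
  · intro M m n hmn
    exact union_subset_union_left _ ((hB M).antitone hmn)
  · intro M n
    exact Or.inr rfl
  · intro M O hO h1
    obtain ⟨n, hn⟩ := (hB M).mem_iff.1 (mem_nhdsWithin_of_mem_nhds (hO.mem_nhds h1))
    refine ⟨n, union_subset hn (singleton_subset_iff.2 h1)⟩
  · intro C hC
    set x : ℕ → G := fun n => (hC.1.natEmbedding C n : G) with hx
    have hinj : Function.Injective x := Subtype.val_injective.comp (hC.1.natEmbedding C).injective
    have hxC : ∀ n, x n ∈ C := fun n => (hC.1.natEmbedding C n).2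
    have hxt : Tendsto x atTop (𝓝 1) := by
      rw [(nhds_basis_opens (1 : G)).tendsto_right_iff]
      rintro O ⟨h1, hO⟩
      have h2 : (x ⁻¹' (C \ id ⁻¹' O)).Finite := (hC.2 O hO h1).preimage hinj.injOn
      have h3 := h2.eventually_cofinite_notMem
      rw [Nat.cofinite_eq_atTop] at h3
      filter_upwards [h3] with n hn
      by_contra h4
      exact hn ⟨hxC n, h4⟩
    obtain ⟨M, hM, hfr⟩ := hcatch x hxt
    refine ⟨⟨M, hM⟩, fun n => ?_⟩
    have h1 : B ⟨M, hM⟩ n ∈ 𝓝[M] (1 : G) := (hB ⟨M, hM⟩).mem n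
    have h2 : ∀ᶠ k in atTop, x k ∈ M → x k ∈ B ⟨M, hM⟩ n :=
      hxt.eventually (mem_nhdsWithin_iff_eventually.1 h1)
    have h3 : ∃ᶠ k in atTop, x k ∈ B ⟨M, hM⟩ n :=
      (hfr.and_eventually h2).mono fun k hk => hk.2 hk.1
    have h4 : {k | x k ∈ B ⟨M, hM⟩ n}.Infinite := by
      rw [← Nat.frequently_atTop_iff_infinite]
      exact h3
    refine (h4.image hinj.injOn).mono ?_
    rintro _ ⟨k, hk, rfl⟩
    exact ⟨hxC k, Or.inl hk⟩

theorem detFC_of {G : Type} [Group G] [TopologicalSpace G] [T2Space G] [Countable G]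
    (h : IsKOmega G ∨ TopologicalSpace.MetrizableSpace G) : DetFC G := by
  have h01 : ℵ₀ ≤ ℵ₁ := (aleph0_lt_aleph_one).le
  rcases h with h | h
  · obtain ⟨K, hK, -, hdet, -⟩ := k_seq h
    refine ⟨range K, ?_, ?_, ?_⟩
    · exact mk_range_le.trans ((mk_le_aleph0 (α := ℕ)).trans h01)
    · rintro _ ⟨n, rfl⟩
      obtain ⟨O, hO1, hO2⟩ := cp_ct (hK n)
      have hb : TopologicalSpace.IsTopologicalBasis
          (range fun k => (Subtype.val ⁻¹' O k : Set (K n))) := by
        apply TopologicalSpace.isTopologicalBasis_of_isOpen_of_nhds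
        · rintro _ ⟨k, rfl⟩
          exact (hO1 k).preimage continuous_subtype_val
        · intro a u ha hu
          obtain ⟨A', hA', rfl⟩ := isOpen_induced_iff.1 hu
          obtain ⟨k, hk1, hk2⟩ := hO2 A' hA' a ⟨ha, a.2⟩
          exact ⟨_, ⟨k, rfl⟩, hk1, fun b hb => hk2 ⟨hb, b.2⟩⟩
      have hs : SecondCountableTopology (K n) := hb.secondCountableTopology (countable_range _)
      infer_instance
    · intro A hA
      apply hdet
      intro n
      have h1 := (hK n).isClosed.isClosedEmbedding_subtypeVal.isClosedMap _ (hA (K n) ⟨n, rfl⟩)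
      rwa [Subtype.image_preimage_coe, inter_comm] at h1
  · refine ⟨{(Set.univ : Set G)}, ?_, ?_, ?_⟩
    · rw [mk_singleton]
      exact one_le_aleph0.trans h01
    · rintro _ rfl
      infer_instance
    · intro A hA
      have h1 := isClosed_univ.isClosedEmbedding_subtypeVal.isClosedMap _ (hA Set.univ rfl)
      rwa [Subtype.image_preimage_coe, univ_inter] at h1

theorem mainF (hMA : MAOne) (G : Type) [Group G] [TopologicalSpace G] [IsTopologicalGroup G]
    [T2Space G] [Countable G] :
    [DetFC G, SequentialSpace G ∧ CatchFC G,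
      IsKOmega G ∨ TopologicalSpace.MetrizableSpace G].TFAE := by
  tfae_have 1 → 2 := fun h => ⟨seq_of_detFC h, catch_of_detFC h⟩
  tfae_have 2 → 3 := by
    rintro ⟨hs, hc⟩
    obtain ⟨J, hne, Q, hQ⟩ := loc_of_catch hc
    exact main_dic hMA hQ.dic
  tfae_have 3 → 1 := detFC_of
  tfae_finish

end Pool.Agent.MAK
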