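import Pool.Agent.MAK.Defs

/-!
# MAK/Pi11: coanalytic sets are unions of `ℵ₁` Borel sets (Lusin, Sierpinski)
-/

set_option autoImplicit false

namespace Pool.Agent.MAK

open Set Topology Filter Cardinal MeasureTheory

theorem exists_omw : ∃ (I : Type) (_ : LinearOrder I) (_ : WellFoundedLT I), Om I := by
  refine ⟨(ℵ₁ : Cardinal.{0}).ord.ToType, inferInstance, inferInstance, ?_, ?_, ?_⟩
  · intro h
    have h1 := Set.countable_univ_iff.1 h
    have h2 : #((ℵ₁ : Cardinal.{0}).ord.ToType) ≤ ℵ₀ := Cardinal.mk_le_aleph0_iff.2 h1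
    rw [mk_ord_toType] at h2
    exact absurd aleph0_lt_aleph_one (not_lt.2 h2)
  · rw [mk_ord_toType]
  · intro i
    have h1 : #(Iio i) < ℵ₁ := by
      simpa using mk_Iio_lt i
    have h2 : (Iio i).Countable := Cardinal.le_aleph0_iff_set_countable.1 (lt_aleph_one_iff.1 h1)
    have h3 : Iic i = insert i (Iio i) := by
      ext x
      simp [le_iff_eq_or_lt]
    rw [h3]
    exact h2.insert i

variable {X : Type} [TopologicalSpace X] {I : Type} [LinearOrder I] [WellFoundedLT I]

/-- the points such that the tree below the node `(w, n)` has rank at most `α` -/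
noncomputable def Rk (F : (ℕ → ℕ) → X) : I → (ℕ → ℕ) → ℕ → Set X :=
  WellFounded.fix (wellFounded_lt (α := I)) fun α rec w n =>
    {x | x ∉ closure (F '' PiNat.cylinder w n) ∨
      ∀ k : ℕ, ∃ (β : I) (hβ : β < α), x ∈ rec β hβ (Function.update w n k) (n + 1)}

theorem Rk_eq (F : (ℕ → ℕ) → X) (α : I) (w : ℕ → ℕ) (n : ℕ) :
    Rk F α w n = {x | x ∉ closure (F '' PiNat.cylinder w n) ∨
      ∀ k : ℕ, ∃ β : I, β < α ∧ x ∈ Rk F β (Function.update w n k) (n + 1)} := by
  unfold Rk
  rw [WellFounded.fix_eq]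
  ext x
  simp only [mem_ofPred_eq, exists_prop]

theorem Rk_meas [MeasurableSpace X] [BorelSpace X] (F : (ℕ → ℕ) → X)
    (hI : ∀ i : I, (Iic i).Countable) (α : I) :
    ∀ (w : ℕ → ℕ) (n : ℕ), MeasurableSet (Rk F α w n) := by
  induction α using WellFoundedLT.induction with
  | ind α ih =>
    intro w n
    have h1 : Rk F α w n = (closure (F '' PiNat.cylinder w n))ᶜ ∪
        ⋂ k : ℕ, ⋃ β ∈ Iio α, Rk F β (Function.update w n k) (n + 1) := by
      rw [Rk_eq]
      ext x
      simp only [mem_ofPred_eq, mem_union, mem_compl_iff, mem_iInter, mem_iUnion, mem_Iio, exists_prop]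
    rw [h1]
    refine isClosed_closure.isOpen_compl.measurableSet.union (MeasurableSet.iInter fun k => ?_)
    exact MeasurableSet.biUnion ((hI α).mono Iio_subset_Iic_self) fun β hβ => ih β hβ _ _

theorem Rk_sub (F : (ℕ → ℕ) → X) (α : I) :
    ∀ (w : ℕ → ℕ) (n : ℕ) (y : ℕ → ℕ), y ∈ PiNat.cylinder w n → F y ∉ Rk F α w n := by
  induction α using WellFoundedLT.induction with
  | ind α ih =>
    intro w n y hy h
    rw [Rk_eq] at h
    rcases h with h | h
    · exact h (subset_closure (mem_image_of_mem F hy))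
    · obtain ⟨β, hβ, h2⟩ := h (y n)
      refine ih β hβ _ _ y ?_ h2
      intro i hi
      rcases Nat.lt_succ_iff_lt_or_eq.1 hi with h3 | rfl
      · rw [Function.update_of_ne h3.ne]
        exact hy i h3
      · rw [Function.update_self]

theorem Rk_cover [T3Space X] {F : (ℕ → ℕ) → X} (hF : Continuous F) (hI : Om I) {x : X}
    (hx : x ∉ range F) (w₀ : ℕ → ℕ) : ∃ α : I, x ∈ Rk F α w₀ 0 := by
  classical
  by_contra hcon
  push Not at hcon
  have step : ∀ (w : ℕ → ℕ) (n : ℕ), (∀ α : I, x ∉ Rk F α w n) →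
      x ∈ closure (F '' PiNat.cylinder w n) ∧
        ∃ k : ℕ, ∀ α : I, x ∉ Rk F α (Function.update w n k) (n + 1) := by
    intro w n h
    obtain ⟨α₀⟩ : Nonempty I := by
      by_contra he
      rw [not_nonempty_iff] at he
      exact hI.unc (to_countable _)
    refine ⟨?_, ?_⟩
    · by_contra h2
      apply h α₀
      rw [Rk_eq]
      exact Or.inl h2
    · by_contra h2
      push Not at h2
      choose β hβ using h2
      have h3 : (⋃ k, Iic (β k)).Countable := Set.countable_iUnion fun k => hI.init _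
      obtain ⟨α, hα⟩ : ∃ α, α ∉ ⋃ k, Iic (β k) := by
        by_contra h4
        push Not at h4
        exact hI.unc (h3.mono fun a _ => h4 a)
      apply h α
      rw [Rk_eq]
      refine Or.inr fun k => ⟨β k, ?_, hβ k⟩
      by_contra h5
      exact hα (mem_iUnion.2 ⟨k, not_lt.1 h5⟩)
  choose! hcl k hk using step
  let s : ℕ → (ℕ → ℕ) := fun n => Nat.rec w₀ (fun n w => Function.update w n (k w n)) n
  have hs0 : s 0 = w₀ := rfl
  have hs1 : ∀ n, s (n + 1) = Function.update (s n) n (k (s n) n) := fun n => rfl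
  have hbad : ∀ n, ∀ α : I, x ∉ Rk F α (s n) n := by
    intro n
    induction n with
    | zero => exact hcon
    | succ n ih =>
      rw [hs1]
      exact hk _ _ ih
  set v : ℕ → ℕ := fun n => s (n + 1) n with hv
  have hsv : ∀ n, ∀ i < n, s n i = v i := by
    intro n
    induction n with
    | zero => intro i hi; omega
    | succ n ih =>
      intro i hi
      rcases Nat.lt_succ_iff_lt_or_eq.1 hi with h3 | rfl
      · rw [hs1, Function.update_of_ne h3.ne]
        exact ih i h3
      · rfl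
  have hxv : ∀ n, x ∈ closure (F '' PiNat.cylinder v n) := by
    intro n
    have h1 : PiNat.cylinder v n = PiNat.cylinder (s n) n := by
      ext y
      simp only [PiNat.cylinder, mem_ofPred_eq]
      constructor
      · intro h i hi
        rw [h i hi, hsv n i hi]
      · intro h i hi
        rw [h i hi, hsv n i hi]
    rw [h1]
    exact hcl _ _ (hbad n)
  apply hx
  refine ⟨v, ?_⟩
  by_contra hne
  obtain ⟨N, ⟨hN, hNc⟩, hNx⟩ := ((closed_nhds_basis (F v)).mem_iff.1
    (isOpen_compl_singleton.mem_nhds (show F v ∈ ({x} : Set X)ᶜ from hne)))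
  obtain ⟨O, ⟨y, n, rfl⟩, hvO, hO⟩ := (PiNat.isTopologicalBasis_cylinders
    (fun _ : ℕ => ℕ)).mem_nhds_iff.1 (hF.continuousAt.preimage_mem_nhds hN)
  have h2 : PiNat.cylinder v n = PiNat.cylinder y n := PiNat.mem_cylinder_iff_eq.1 hvO
  have h3 : closure (F '' PiNat.cylinder v n) ⊆ N := by
    refine closure_minimal ?_ hNc
    rw [h2]
    exact image_subset_iff.2 hO
  exact hNx (h3 (hxv n)) rfl

/-- coanalytic sets are unions of `ℵ₁` Borel sets -/
theorem coan [T3Space X] [MeasurableSpace X] [BorelSpace X] {C : Set X} (hC : AnalyticSet Cᶜ) :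
    ∃ (I : Type) (B : I → Set X), #I ≤ ℵ₁ ∧ (∀ α, MeasurableSet (B α)) ∧ C = ⋃ α, B α := by
  obtain ⟨I, inst, inst', hI⟩ := exists_omw
  rw [AnalyticSet_def] at hC
  rcases hC with h | ⟨F, hF, hr⟩
  · refine ⟨Unit, fun _ => univ, ?_, fun _ => MeasurableSet.univ, ?_⟩
    · rw [mk_unit]
      exact one_le_aleph0.trans (aleph0_lt_aleph_one).le
    · rw [iUnion_const]
      exact compl_empty_iff.1 h
  · refine ⟨I, fun α => Rk F α (fun _ => 0) 0, hI.le, fun α => Rk_meas F hI.init α _ _, ?_⟩
    ext x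
    rw [mem_iUnion]
    constructor
    · intro hx
      apply Rk_cover hF hI
      rw [hr]
      exact fun h => h hx
    · rintro ⟨α, hα⟩
      by_contra hx
      have h1 : x ∈ range F := by
        rw [hr]
        exact hx
      obtain ⟨y, rfl⟩ := h1
      exact Rk_sub F α _ 0 y (fun i hi => by omega) hα

end Pool.Agent.MAK
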