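import Pool.Agent.MAK.MainF
import Pool.Agent.MAK.Pi11
import Pool.Agent.CSD.Main

/-!
# MAK/MainS: countable groups determined by `Σ¹₂` sets of sequences, under Martin's axiom
-/

set_option autoImplicit false

namespace Pool.Agent.MAK

open Set Topology Filter Cardinal MeasureTheory
open Pool.Agent.ASG (IsKOmega)
open Pool.Agent.CSD (Cont An Null seq_of_det det_null cont_of)

/-- `Σ¹₂`: the projection of a coanalytic set -/
def SigmaTwo {X : Type} [TopologicalSpace X] (S : Set X) : Prop :=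
  ∃ C : Set (X × (ℕ → ℕ)), AnalyticSet Cᶜ ∧ S = Prod.fst '' C

/-- `Σ¹₂` sets of sequences of elements of the discrete set `G` -/
def SigmaTwoFamily {G : Type} (𝒜 : Set (ℕ → G)) : Prop :=
  @SigmaTwo (ℕ → G) (@Pi.topologicalSpace ℕ (fun _ => G) (fun _ => ⊥)) 𝒜

theorem sigma_union {X : Type} [TopologicalSpace X] [PolishSpace X] {S : Set X} (h : SigmaTwo S) :
    ∃ (I : Type) (B : I → Set X), #I ≤ ℵ₁ ∧ (∀ i, AnalyticSet (B i)) ∧ S = ⋃ i, B i := by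
  obtain ⟨C, hC, rfl⟩ := h
  let _ : MeasurableSpace (X × (ℕ → ℕ)) := borel _
  have : BorelSpace (X × (ℕ → ℕ)) := ⟨rfl⟩
  obtain ⟨I, B, hI, hB, hCB⟩ := coan hC
  refine ⟨I, fun i => Prod.fst '' (B i), hI, fun i => ?_, ?_⟩
  · exact (hB i).analyticSet.image_of_continuous continuous_fst
  · rw [hCB, image_iUnion]

theorem sigma_of_an {X : Type} [TopologicalSpace X] [PolishSpace X] {S : Set X} (h : AnalyticSet S) :
    SigmaTwo S := by
  rw [AnalyticSet_def] at h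
  rcases h with rfl | ⟨f, hf, rfl⟩
  · refine ⟨∅, ?_, by simp⟩
    rw [compl_empty]
    exact isClosed_univ.analyticSet
  · refine ⟨{p | f p.2 = p.1}, ?_, ?_⟩
    · have h1 : IsClosed {p : X × (ℕ → ℕ) | f p.2 = p.1} :=
        isClosed_eq (hf.comp continuous_snd) continuous_fst
      let _ : MeasurableSpace (X × (ℕ → ℕ)) := borel _
      have : BorelSpace (X × (ℕ → ℕ)) := ⟨rfl⟩
      exact h1.isOpen_compl.measurableSet.analyticSet
    · ext x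
      constructor
      · rintro ⟨w, rfl⟩
        exact ⟨(f w, w), rfl, rfl⟩
      · rintro ⟨⟨y, w⟩, hy, rfl⟩
        exact ⟨w, hy⟩

private theorem sig_union_disc {D : Type} [TopologicalSpace D] [DiscreteTopology D] [Countable D]
    {S : Set (ℕ → D)} (h : SigmaTwo S) :
    ∃ (I : Type) (B : I → Set (ℕ → D)), #I ≤ ℵ₁ ∧ (∀ i, AnalyticSet (B i)) ∧ S = ⋃ i, B i := by
  have pX : PolishSpace (ℕ → D) := { }
  exact sigma_union h

private theorem sig_an_disc {D : Type} [TopologicalSpace D] [DiscreteTopology D] [Countable D]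
    {S : Set (ℕ → D)} (h : AnalyticSet S) : SigmaTwo S := by
  have pX : PolishSpace (ℕ → D) := { }
  exact sigma_of_an h

theorem fam_union {G : Type} [Countable G] {𝒜 : Set (ℕ → G)} (h : SigmaTwoFamily 𝒜) :
    ∃ (I : Type) (B : I → Set (ℕ → G)), #I ≤ ℵ₁ ∧ (∀ i, An (B i)) ∧ 𝒜 = ⋃ i, B i :=
  @sig_union_disc G ⊥ (@DiscreteTopology.mk G ⊥ rfl) _ 𝒜 h

theorem fam_of_an {G : Type} [Countable G] {𝒜 : Set (ℕ → G)} (h : An 𝒜) : SigmaTwoFamily 𝒜 :=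
  @sig_an_disc G ⊥ (@DiscreteTopology.mk G ⊥ rfl) _ 𝒜 h

theorem of_union (hMA : MAOne) {G : Type} [Group G] [TopologicalSpace G] [IsTopologicalGroup G]
    [T2Space G] [Countable G] {𝒰 : Set (Set (ℕ → G))} (hc : #𝒰 ≤ ℵ₁) (hAn : ∀ 𝒜 ∈ 𝒰, An 𝒜)
    (hd : Pool.Agent.CSD.Det (⋃₀ 𝒰)) : IsKOmega G ∨ TopologicalSpace.MetrizableSpace G := by
  have hseq : SequentialSpace G := seq_of_det hd.1 hd.2
  have hf : ∀ i : {𝒜 : 𝒰 // (𝒜 : Set (ℕ → G)).Nonempty}, ∃ f : (ℕ → ℕ) → ℕ → G, Cont f ∧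
      range f = (i : Set (ℕ → G)) := by
    rintro ⟨⟨𝒜, h𝒜⟩, hne⟩
    rcases Eq.mp (@AnalyticSet_def (ℕ → G) (@Pi.topologicalSpace ℕ (fun _ => G) (fun _ => ⊥)) 𝒜)
      (hAn 𝒜 h𝒜) with h0 | ⟨f, hf, hr⟩
    · exact (hne.ne_empty h0).elim
    · exact ⟨f, @cont_of G ⊥ (@DiscreteTopology.mk G ⊥ rfl) f hf, hr⟩
  choose f hfc hfr using hf
  have hcard : #{𝒜 : 𝒰 // (𝒜 : Set (ℕ → G)).Nonempty} ≤ ℵ₁ :=
    (mk_le_of_injective Subtype.val_injective).trans hc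
  refine main_dic hMA (dic_of_an hcard hfc (fun i w => hd.1 _ ?_) ?_)
  · exact mem_sUnion.2 ⟨i.1.1, i.1.2, hfr i ▸ mem_range_self w⟩
  · intro U hU
    apply hd.2
    intro x hx a ha
    obtain ⟨𝒜, h𝒜, ha'⟩ := mem_sUnion.1 ha
    have h1 : a ∈ range (f ⟨⟨𝒜, h𝒜⟩, ⟨a, ha'⟩⟩) := by
      rw [hfr]
      exact ha'
    obtain ⟨w, hw⟩ := h1
    have h2 := hU x hx ⟨⟨𝒜, h𝒜⟩, ⟨a, ha'⟩⟩ w
    rwa [hw] at h2

theorem mainS (hMA : MAOne) (G : Type) [Group G] [TopologicalSpace G] [IsTopologicalGroup G]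
    [T2Space G] [Countable G] :
    [(∃ 𝒰 : Set (Set (ℕ → G)), #𝒰 ≤ ℵ₁ ∧ (∀ 𝒜 ∈ 𝒰, An 𝒜) ∧ Pool.Agent.CSD.Det (⋃₀ 𝒰)),
      ∃ 𝒜 : Set (ℕ → G), SigmaTwoFamily 𝒜 ∧ Pool.Agent.CSD.Det 𝒜,
      SequentialSpace G ∧ SigmaTwoFamily (Null G),
      DetFC G,
      IsKOmega G ∨ TopologicalSpace.MetrizableSpace G].TFAE := by
  tfae_have 1 → 5 := by
    rintro ⟨𝒰, hc, hAn, hd⟩
    exact of_union hMA hc hAn hd
  tfae_have 5 → 3 := by
    intro h
    have h1 := ((Pool.Agent.CSD.main G).out 3 1).1 h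
    exact ⟨h1.1, fam_of_an h1.2⟩
  tfae_have 3 → 2 := by
    rintro ⟨h1, h2⟩
    exact ⟨_, h2, det_null⟩
  tfae_have 2 → 1 := by
    rintro ⟨𝒜, h1, h2⟩
    obtain ⟨I, B, hI, hB, rfl⟩ := fam_union h1
    refine ⟨range B, mk_range_le.trans hI, ?_, ?_⟩
    · rintro _ ⟨i, rfl⟩
      exact hB i
    · rw [sUnion_range]
      exact h2
  tfae_have 4 → 5 := fun h => ((mainF hMA G).out 0 2).1 h
  tfae_have 5 → 4 := fun h => ((mainF hMA G).out 2 0).1 h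
  tfae_finish

end Pool.Agent.MAK
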