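import Pool.Agent.MAK.Defs

/-!
# MAK/Red: sets with compact closure which catch the sequences converging to `1`

As in ASG/KOm (helper88), for uncountable families: translates of these compact sets determine the topology.
-/

set_option autoImplicit false

namespace Pool.Agent.MAK

open Set Topology Filter Cardinal
open Pool.Agent.ASG (ConvTo)

theorem red {G J : Type} [Group G] [TopologicalSpace G] [IsTopologicalGroup G] [T2Space G] [Countable G]
    [SequentialSpace G] (hJ : #J ≤ ℵ₁) {V : J → Set G} (hc : ∀ i, IsCompact (closure (V i)))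
    (hV : ∀ C : Set G, ConvTo id C 1 → ∃ i, (C ∩ V i).Infinite) :
    ∃ 𝒦 : Set (Set G), #𝒦 ≤ ℵ₁ ∧ Det 𝒦 := by
  classical
  have h01 : ℵ₀ ≤ ℵ₁ := (aleph0_lt_aleph_one).le
  set L : G × J → Set G := fun n => {x | n.1⁻¹ * x ∈ closure (V n.2) ∪ {1}} with hL
  have hLc : ∀ n, IsCompact (L n) := by
    intro n
    have h1 : IsCompact (closure (V n.2) ∪ {1}) := (hc _).union isCompact_singleton
    have h2 : L n = (Homeomorph.mulLeft n.1) '' (closure (V n.2) ∪ {1}) := by
      ext x
      constructor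
      · intro hx
        exact ⟨_, hx, by simp⟩
      · rintro ⟨y, hy, rfl⟩
        simpa [hL] using hy
    rw [h2]
    exact h1.image (Homeomorph.mulLeft _).continuous
  refine ⟨range L, ?_, ?_, ?_⟩
  · refine mk_range_le.trans ?_
    rw [mk_prod, lift_id, lift_id]
    exact (mul_le_mul' ((mk_le_aleph0 (α := G)).trans h01) hJ).trans (mul_eq_self h01).le
  · rintro _ ⟨n, rfl⟩
    exact hLc n
  intro A hA
  have hcl : ∀ n, IsClosed (A ∩ L n) := fun n => hA _ ⟨n, rfl⟩
  apply IsSeqClosed.isClosed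
  intro a x ha hax
  by_cases hx : ∃ k, a k = x
  · obtain ⟨k, hk⟩ := hx
    rw [← hk]
    exact ha k
  push Not at hx
  set b : ℕ → G := fun k => x⁻¹ * a k with hb
  have hbt : Tendsto b atTop (𝓝 1) := by
    have := (tendsto_const_nhds (x := x⁻¹)).mul hax
    simpa [hb] using this
  have hb1 : ∀ k, b k ≠ 1 := by
    intro k h9
    apply hx k
    have h10 : x⁻¹ * a k = 1 := h9
    exact (inv_mul_eq_one.mp h10).symm
  have hconv : ConvTo id (range b) 1 := by
    refine ⟨?_, ?_⟩
    · intro hfin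
      have h1 : (range b)ᶜ ∈ 𝓝 (1 : G) := by
        apply hfin.isClosed.isOpen_compl.mem_nhds
        rintro ⟨k, hk⟩
        exact hb1 k hk
      obtain ⟨k, hk⟩ := (hbt.eventually h1).exists
      exact hk ⟨k, rfl⟩
    · intro O hO h1O
      obtain ⟨K, hK⟩ := eventually_atTop.mp (hbt.eventually (hO.mem_nhds h1O))
      refine ((finite_Iio K).image b).subset ?_
      rintro y ⟨⟨k, rfl⟩, hy⟩
      refine ⟨k, ?_, rfl⟩
      by_contra h9
      simp only [mem_Iio, not_lt] at h9
      exact hy (hK k h9)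
  obtain ⟨i, hi⟩ := hV _ hconv
  have hfreq : ∃ᶠ k in atTop, a k ∈ A ∩ L (x, i) := by
    have h1 : ∃ᶠ k in atTop, b k ∈ V i := by
      intro hev
      obtain ⟨K, hK⟩ := eventually_atTop.mp hev
      apply hi
      refine ((finite_Iio K).image b).subset ?_
      rintro y ⟨⟨k, rfl⟩, hy⟩
      refine ⟨k, ?_, rfl⟩
      by_contra h9
      simp only [mem_Iio, not_lt] at h9
      exact hK k h9 hy
    refine h1.mono fun k hk => ⟨ha k, ?_⟩
    show x⁻¹ * a k ∈ closure (V i) ∪ {1}
    left
    exact subset_closure hk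
  exact ((hcl (x, i)).mem_of_frequently_of_tendsto hfreq hax).1

end Pool.Agent.MAK
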