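import Pool.Agent.MAK.Main
import Pool.Agent.MAK.Dic
import Pool.Agent.MAK.Dom
import Pool.Agent.MAK.Esc
import Pool.Agent.MAK.STwoF
import Pool.Agent.MAK.Red
import Pool.Agent.ASG.Main

/-!
# MAK/NF: under Martin's axiom, non-Frechet-Urysohn sequential groups with the dichotomy are `k_ω`

The same structure as in CSD/Main (`forward`).
-/

set_option autoImplicit false

namespace Pool.Agent.MAK

open Set Topology Filter Cardinal
open Pool.Agent.ASG (IsKOmega NotC CD Net Fan Big ConvTo comp mk_fan s_one)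

private theorem mk_net {G : Type*} [Group G] [TopologicalSpace G] {V : ℕ → Set G}
    (hV : ∀ i, NotC (V i)) (hO : ∀ O : Set G, IsOpen O → 1 ∈ O → ∃ i, V i ⊆ id ⁻¹' O) :
    ∃ h : ℕ → ℕ → G, Net h := by
  choose D hDV hDi hDc using hV
  refine ⟨fun n m => ((hDi n).natEmbedding (D n) m : G), fun n => ?_, fun n z => ?_, ?_⟩
  · exact Subtype.val_injective.comp ((hDi n).natEmbedding (D n)).injective
  · obtain ⟨U, hU, hf⟩ := hDc n z
    refine ⟨U, hU, hf.subset ?_⟩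
    rintro _ ⟨hx, m, rfl⟩
    exact ⟨hx, ((hDi n).natEmbedding (D n) m).2⟩
  · intro O hOo h1
    obtain ⟨n, hn⟩ := hO O hOo h1
    exact ⟨n, fun m => hn (hDV n ((hDi n).natEmbedding (D n) m).2)⟩

theorem nf (hMA : MAOne) {G : Type} [Group G] [TopologicalSpace G] [IsTopologicalGroup G] [T2Space G]
    [Countable G] [SequentialSpace G] (hD : Dic G) (hF : ¬ FrechetUrysohnSpace G) : IsKOmega G := by
  have h01 : ℵ₀ ≤ ℵ₁ := (aleph0_lt_aleph_one).le
  rcases hD G id 1 NotC with ⟨V, hV, hO⟩ | ⟨J, V, hJ, hV, hC⟩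
  · exfalso
    obtain ⟨h, hh⟩ := mk_net hV hO
    obtain ⟨y, hy⟩ := mk_fan hF
    by_cases h1 : ∃ g : G, ∃ W : ℕ → Set (ℕ × ℕ × ℕ), (∀ i, Big (W i)) ∧
        ∀ O : Set G, IsOpen O → g ∈ O →
          ∃ i, W i ⊆ (fun t : ℕ × ℕ × ℕ => h t.1 t.2.1 * y t.1 t.2.2) ⁻¹' O
    · obtain ⟨g, W, hW, hWO⟩ := h1
      exact s_one hy g hW hWO
    · have h2 : ∀ g : G, ∃ (J : Type) (W : J → Set (ℕ × ℕ × ℕ)), #J ≤ ℵ₁ ∧ (∀ i, ¬ Big (W i)) ∧
          ∀ C : Set (ℕ × ℕ × ℕ), ConvTo (fun t : ℕ × ℕ × ℕ => h t.1 t.2.1 * y t.1 t.2.2) C g →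
            ∃ i, (C ∩ W i).Infinite := by
        intro g
        rcases hD (ℕ × ℕ × ℕ) (fun t : ℕ × ℕ × ℕ => h t.1 t.2.1 * y t.1 t.2.2) g Big with h3 | h3
        · exact (h1 ⟨g, h3⟩).elim
        · exact h3
      choose J B hJ hB hBC using h2
      have hcard : #(Σ g : G, J g) ≤ ℵ₁ := by
        rw [mk_sigma]
        refine (sum_le_sum _ (fun _ => ℵ₁) hJ).trans ?_
        rw [sum_const, lift_id, lift_id]
        exact (mul_le_mul' ((mk_le_aleph0 (α := G)).trans h01) le_rfl).trans (mul_eq_self h01).le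
      refine s_twoF hh hy.lim (B := fun k : (Σ g : G, J g) => B k.1 k.2)
        (esc (fun f => dom hMA hcard f) (fun k => hB _ _)) ?_
      intro g C hCg
      obtain ⟨i, hi⟩ := hBC g C hCg
      exact ⟨⟨g, i⟩, hi⟩
  · obtain ⟨𝒦, h1, h2⟩ := red hJ (fun i => comp (hV i)) hC
    exact main hMA G 𝒦 h1 h2

end Pool.Agent.MAK
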