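import Pool.Agent.MAK.Defs

/-!
# MAK/Pos: what a filter gives

PROOF PLAN.  Dense sets: `D_K = {p | K ⊆ p.K}` for `K ∈ 𝒞` (extend `p.K` to `p.K ∪ (K ∪ K⁻¹)`, which is in `𝒞`, symmetric and contains `1`; nothing else changes);
`D_F = {p | F ⊆ p.F}` for finite `F` (replace `p.F` by `p.F ∪ F`); `D_c = {p | ∃ a ∈ p.Z, c < a}` for `c : I` (add to `p.Z` an element `a` larger than `c` and larger than all
elements of `p.Z`: the set `Iic c ∪ ⋃ b ∈ p.Z, Iic b` is countable and `I` is not; no condition on pairs, as `a < b`, `b ∈ p.Z`, is impossible).  At most `ℵ₁` dense sets: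
`𝒟 = (image of 𝒞) ∪ (range over Finset G) ∪ (range over I)`; `mk_union_le`, `mk_image_le`, `mk_range_le`, `Finset G` is countable.  `Cond C 𝒞` is nonempty: `A = ∅`, `K = {1}`, `Z = ∅`, `F = ∅`.
`A = ⋃ p ∈ Γ, p.A`, `Z = ⋃ p ∈ Γ, p.Z`.  `A ∩ K` finite: take `p ∈ Γ` with `K ⊆ p.K`; for `q ∈ Γ` and `x ∈ q.A`, `x ∈ K`, take `r ∈ Γ`, `r ≤ p, q`; then `x ∈ r.A`, so `x ∈ p.A`
(`new`).  `Z` is uncountable: a countable subset of `I` is not cofinal (`⋃ a ∈ Z, Iic a` would be countable and all of `I`).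
Last claim: take `p ∈ Γ` with `b ∈ p.Z` and `F ⊆ p.F` (directedness); every `a ∈ Z`, `a < b`, `a ∉ p.Z` satisfies `Bad`: `a ∈ q.Z`, `r ≤ p, q`, `Bad C r.A p.F a b`, and `Bad.mono`; so the set is contained in `p.Z`.
-/

set_option autoImplicit false

namespace Pool.Agent.MAK

open Set Cardinal Pointwise

section

variable {G I : Type} [Group G] [LinearOrder I] {C : I → Set G} {𝒞 : Set (Set G)}

private theorem dense_K (hC : CloW 𝒞) {K : Set G} (hK : K ∈ 𝒞) (p : Cond C 𝒞) :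
    ∃ q ∈ {q : Cond C 𝒞 | K ⊆ q.K}, q ≤ p := by
  refine ⟨⟨p.A, p.K ∪ (K ∪ K⁻¹), p.Z, p.F, p.hA,
    hC.union _ p.hK _ (hC.union _ hK _ (hC.inv _ hK)), ?_, Or.inl p.h1⟩, ?_, ?_⟩
  · rw [union_inv, union_inv, inv_inv, p.hi, union_comm K⁻¹ K]
  · intro x hx
    exact Or.inr (Or.inl hx)
  · exact ⟨subset_rfl, subset_union_left, subset_rfl, subset_rfl, fun x hx _ => hx,
      fun a ha ha' => (ha' ha).elim⟩

private theorem dense_F (F : Finset G) (p : Cond C 𝒞) :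
    ∃ q ∈ {q : Cond C 𝒞 | F ⊆ q.F}, q ≤ p := by
  classical
  refine ⟨⟨p.A, p.K, p.Z, p.F ∪ F, p.hA, p.hK, p.hi, p.h1⟩, Finset.subset_union_right, ?_⟩
  exact ⟨subset_rfl, subset_rfl, subset_rfl, Finset.subset_union_left, fun x hx _ => hx,
    fun a ha ha' => (ha' ha).elim⟩

private theorem dense_c (hI : Om I) (c : I) (p : Cond C 𝒞) :
    ∃ q ∈ {q : Cond C 𝒞 | ∃ a ∈ q.Z, c < a}, q ≤ p := by
  classical
  have h1 : (Iic c ∪ ⋃ b ∈ p.Z, Iic b).Countable :=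
    (hI.init c).union (p.Z.countable_toSet.biUnion fun b _ => hI.init b)
  obtain ⟨a, ha⟩ : ∃ a, a ∉ Iic c ∪ ⋃ b ∈ p.Z, Iic b := by
    by_contra hcon
    push Not at hcon
    exact hI.unc (h1.mono fun a _ => hcon a)
  rw [mem_union, not_or, mem_Iic, not_le] at ha
  have hb : ∀ b ∈ p.Z, b < a := by
    intro b hb
    by_contra hle
    exact ha.2 (mem_biUnion hb (not_lt.1 hle))
  refine ⟨⟨p.A, p.K, insert a p.Z, p.F, p.hA, p.hK, p.hi, p.h1⟩,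
    ⟨a, Finset.mem_insert_self _ _, ha.1⟩, ?_⟩
  refine ⟨subset_rfl, subset_rfl, Finset.subset_insert _ _, subset_rfl, fun x hx _ => hx, ?_⟩
  intro a' ha' ha2 b hbZ hab
  rcases Finset.mem_insert.1 ha' with rfl | h3
  · exact (lt_asymm hab (hb b hbZ)).elim
  · exact (ha2 h3).elim

end

theorem generic {G I : Type} [Group G] [Countable G] [LinearOrder I] {C : I → Set G}
    {𝒞 : Set (Set G)} (hMA : MAOne) (hI : Om I) (hC : CloW 𝒞) (hcard : #𝒞 ≤ ℵ₁)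
    (hccc : CCC (Cond C 𝒞)) :
    ∃ (A : Set G) (Z : Set I), 1 ∉ A ∧ (∀ K ∈ 𝒞, (A ∩ K).Finite) ∧ ¬ Z.Countable ∧
      ∀ b ∈ Z, ∀ F : Finset G, {a | a ∈ Z ∧ a < b ∧ ¬ Bad C A F a b}.Finite := by
  classical
  have hne : Nonempty (Cond C 𝒞) :=
    ⟨⟨∅, {1}, ∅, ∅, by simp, hC.one, by simp, rfl⟩⟩
  have h01 : ℵ₀ ≤ ℵ₁ := (aleph0_lt_aleph_one).le
  obtain ⟨Γ, hup, hdir, hmeet⟩ := hMA (Cond C 𝒞) hccc
    (((fun K => {q : Cond C 𝒞 | K ⊆ q.K}) '' 𝒞) ∪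
      (range (fun F : Finset G => {q : Cond C 𝒞 | F ⊆ q.F}) ∪
        range (fun c : I => {q : Cond C 𝒞 | ∃ a ∈ q.Z, c < a})))
    (by
      refine (mk_union_le _ _).trans ?_
      refine (add_le_add (mk_image_le.trans hcard) ((mk_union_le _ _).trans
        (add_le_add (mk_range_le.trans ((mk_le_aleph0 (α := Finset G)).trans h01))
          (mk_range_le.trans hI.le)))).trans ?_
      rw [add_eq_self h01, add_eq_self h01])
    (by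
      rintro D (⟨K, hK, rfl⟩ | ⟨F, rfl⟩ | ⟨c, rfl⟩) p
      · exact dense_K hC hK p
      · exact dense_F F p
      · exact dense_c hI c p)
  have mK : ∀ K ∈ 𝒞, ∃ p ∈ Γ, K ⊆ p.K := by
    intro K hK
    obtain ⟨p, hp1, hp2⟩ := hmeet _ (Or.inl ⟨K, hK, rfl⟩)
    exact ⟨p, hp2, hp1⟩
  have mF : ∀ F : Finset G, ∃ p ∈ Γ, F ⊆ p.F := by
    intro F
    obtain ⟨p, hp1, hp2⟩ := hmeet _ (Or.inr (Or.inl ⟨F, rfl⟩))
    exact ⟨p, hp2, hp1⟩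
  have mc : ∀ c : I, ∃ p ∈ Γ, ∃ a ∈ p.Z, c < a := by
    intro c
    obtain ⟨p, hp1, hp2⟩ := hmeet _ (Or.inr (Or.inr ⟨c, rfl⟩))
    exact ⟨p, hp2, hp1⟩
  refine ⟨{x | ∃ p ∈ Γ, x ∈ p.A}, {a | ∃ p ∈ Γ, a ∈ p.Z}, ?_, ?_, ?_, ?_⟩
  · rintro ⟨p, -, hp⟩
    exact p.hA hp
  · intro K hK
    obtain ⟨p, hp, hpK⟩ := mK K hK
    refine p.A.finite_toSet.subset ?_
    rintro x ⟨⟨q, hq, hxq⟩, hxK⟩
    obtain ⟨r, -, hrp, hrq⟩ := hdir p hp q hq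
    exact hrp.new x (hrq.A hxq) (hpK hxK)
  · intro hZ
    have h1 : (⋃ a ∈ {a | ∃ p ∈ Γ, a ∈ p.Z}, Iic a).Countable :=
      hZ.biUnion fun a _ => hI.init a
    apply hI.unc
    refine h1.mono fun c _ => ?_
    obtain ⟨p, hp, a, ha, hca⟩ := mc c
    exact mem_biUnion (show a ∈ {a | ∃ p ∈ Γ, a ∈ p.Z} from ⟨p, hp, ha⟩) hca.le
  · rintro b ⟨p₁, hp₁, hb⟩ F
    obtain ⟨p₂, hp₂, hF⟩ := mF F
    obtain ⟨p, hp, hpp₁, hpp₂⟩ := hdir p₁ hp₁ p₂ hp₂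
    refine p.Z.finite_toSet.subset ?_
    rintro a ⟨⟨q, hq, haq⟩, hab, hnb⟩
    by_contra hap
    obtain ⟨r, hr, hrp, hrq⟩ := hdir p hp q hq
    have h1 := hrp.bad a (hrq.Z haq) hap b (hpp₁.Z hb) hab
    apply hnb
    refine h1.mono ?_ (Finset.coe_subset.2 (hF.trans hpp₂.F))
    intro x hx
    exact ⟨r, hr, hx⟩

end Pool.Agent.MAK
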